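import Pool.Agent.V7H95.Wl.Kun
import Pool.Agent.W484.CK.Main
import Pool.Agent.N166.MU.Main
import Pool.Agent.V7H82.NR.GenMain

/-!
# Chow groups, the conjectures of Murre and unramified cohomology: the properties for families of Weil
# polynomials with exact relations
-/

set_option autoImplicit false
set_option linter.unusedSectionVars false
set_option linter.unusedVariables false

open CategoryTheory AlgebraicGeometry

universe u v w

namespace Pool.Agent.V7H95.Wl

open Module Polynomial Pool.Agent.H914 Pool.Agent.H914.VarClass Pool.Agent.H914.VarClass.Obj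
  Pool.Agent.W492.BB Pool.Agent.W550.Corr Pool.Agent.W484.TB Pool.Agent.W484.HS
  Pool.Agent.W484.CK Pool.Agent.N166.MU Pool.Agent.V7H82.NR Pool.Agent.TH133

variable {I : Type} [Finite I] {f : I → ℤ[X]} (hmon : ∀ i, (f i).Monic)
  (E : IntermediateField ℚ ℂ) {q : ℕ} (hq : 1 < q) (r : ℕ) (hex : Exact E q r f)

include hmon hq hex

theorem chow_of_exact : ChowForRankOver E q r f := by
  intro k _ 𝒱 C _ K _ _ _ H _ s A Z πA πZ hsit hF
  obtain ⟨J, hJ, deg, D, E', hdual, hD, hK⟩ := kunneth_main hmon E hq r hex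
    (isStandard_bridge hsit.standard) hsit.pos (isAbelian_bridge hsit.abelian)
    (πZ := πZ) hsit.rank (nilpotence_bridge hsit.nilpotence)
  have h1 : Pool.Agent.W484.CH.HasKunneth (Pool.Agent.W484.CH.chowData C) A Z deg D := Pool.Agent.W484.CH.hasKunneth_of hdual
    Pool.Agent.W484.CH.chowData_isCorrTheory (hK (Pool.Agent.W484.CH.chowData C) Pool.Agent.W484.CH.chowData_isCorrTheory
      (Pool.Agent.W484.CH.chowData_actsAsPower (isFrobenius_bridge hF)))
  refine ⟨⟨J, hJ, deg, D, hD, fun i y hy => ?_⟩, Pool.Agent.W484.CH.ratEqNum_iff hdual h1,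
    Pool.Agent.W484.CH.ratEqHom_iff hdual h1⟩
  obtain ⟨z, ⟨hz1, hz2⟩, hz3⟩ := h1 i y hy
  have h2 : ∀ z' : J → C.A Z, ∑ j, times C (D j) (z' j) =
      ∑ j, (Pool.Agent.W484.CH.chowData C).act (Pool.Agent.W484.CH.extBy C Z (D j)) (z' j) := fun z' =>
    Finset.sum_congr rfl fun j _ => (Pool.Agent.W484.CH.act_extBy C (D j) (z' j)).symm
  refine ⟨z, ⟨hz1, ?_⟩, fun z' hz' => hz3 z' ⟨hz'.1, ?_⟩⟩
  · rw [h2 z]
    exact hz2
  · rw [← h2 z']
    exact hz'.2

theorem murre_of_exact : MurreForRankOver E q r f := by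
  intro k _ 𝒱 C _ K _ _ _ H _ s A Y πA πY hN hsit hF k' _ 𝒱' C' _ K' _ H' _ A' Z α β γ hN' hS' hT'
    hfib
  have hC1 : IsChowProj C := isChowProj_of hN hsit.standard
  have hC2 : IsChowProj C' := isChowProj_of hN' hS'
  have hH2 : IsWeilProj H' := isWeilProj_of hS' hT'
  obtain ⟨J, hJ, deg, D, E', hdual, hD, hK⟩ := kunneth_main hmon E hq r hex
    (isStandard_bridge hsit.standard) hsit.pos (isAbelian_bridge hsit.abelian)
    (πZ := πY) hsit.rank (nilpotence_bridge hsit.nilpotence)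
  have h1 : Pool.Agent.W484.CH.HasKunneth (Pool.Agent.W484.CH.chowData C) A Y deg D :=
    Pool.Agent.W484.CH.hasKunneth_of hdual
    Pool.Agent.W484.CH.chowData_isCorrTheory (hK (Pool.Agent.W484.CH.chowData C)
      Pool.Agent.W484.CH.chowData_isCorrTheory
      (Pool.Agent.W484.CH.chowData_actsAsPower (isFrobenius_bridge hF)))
  have hG : Gen C A Y deg D E' := gen_of_dual hsit.standard hdual (fun i y hy => by
    obtain ⟨z, ⟨hz1, hz2⟩, -⟩ := h1 i y hy
    refine ⟨z, hz1, hz2.trans ?_⟩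
    exact Finset.sum_congr rfl fun j _ => Pool.Agent.W484.CH.act_extBy C (D j) (z j))
  exact murreForProduct_of_gen H' (gen_fibre hfib hG)
    (fun j => divisorProduct_fibre hfib (hD j))

theorem unramified_of_exact : UnramifiedForRankOver E q r f := by
  intro k _ 𝒱 C _ K _ _ _ H _ s A Z πA πZ hsit hF hZ X
  have h1 := chow_of_exact hmon E hq r hex k 𝒱 C K H s A Z πA πZ hsit hF
  exact finite_of_ratEqNum (hsit.standard.finite _) (h1.2.1.2 hZ) X

end Pool.Agent.V7H95.Wl
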