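import Pool.Agent.V7H95.Wl.Exact
import Pool.Agent.W484.CH.Fin

/-!
# The Kunneth formula for products with abelian varieties with exact relations
-/

set_option autoImplicit false
set_option linter.unusedSectionVars false
set_option linter.unusedVariables false

open CategoryTheory AlgebraicGeometry

universe u v w

namespace Pool.Agent.V7H95.Wl

open Module Polynomial Pool.Agent.H914 Pool.Agent.H914.VarClass Pool.Agent.H914.VarClass.Obj
  Pool.Agent.W492.BB Pool.Agent.W550.Corr Pool.Agent.W484.TB Pool.Agent.W484.HS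
  Pool.Agent.W484.CH Pool.Agent.W484.AA

noncomputable section

theorem rank_one' (E : IntermediateField ℚ ℂ) (r : ℕ) :
    RankLEOver E r {ρ : ℂ | aeval ρ (Polynomial.X - 1 : ℚ[X]) = 0} := by
  refine ⟨fun _ => 1, fun _ => one_ne_zero, fun ρ hρ => ⟨1, 1, fun _ => 0, one_pos,
    one_mem E, one_ne_zero, ?_⟩⟩
  change aeval ρ (Polynomial.X - 1 : ℚ[X]) = 0 at hρ
  rw [map_sub, aeval_X, map_one, sub_eq_zero] at hρ
  rw [hρ]
  simp

/-- The relations for a field of characteristic zero. -/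
theorem exact_field {I : Type} [Finite I] {f : I → ℤ[X]} (hmon : ∀ i, (f i).Monic)
    {E : IntermediateField ℚ ℂ} {q r : ℕ} (hex : Exact E q r f)
    (s : ℕ) (hs : 0 < s) (χ : ℚ[X]) (hχ : χ ≠ 0)
    (hrank : RankLEOver E r {ρ : ℂ | aeval ρ χ = 0})
    {K : Type*} [Field K] [CharZero K] (ρ : K) (hρ : aeval ρ χ = 0) :
    ExactPairK (fun z : {z : K // ∃ i, aeval z (f i) = 0} => (z : K) ^ s)
      ((q : K) ^ s) ρ := by
  classical
  have hmem : ∀ z : K, (∃ p : ℚ[X], p ≠ 0 ∧ aeval z p = 0) → z ∈ algebraicClosure ℚ K := by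
    rintro z ⟨p, hp, hz⟩
    rw [mem_algebraicClosure_iff]
    exact ⟨p, hp, hz⟩
  have halg : Algebra.IsAlgebraic ℚ (algebraicClosure ℚ K) := algebraicClosure.isAlgebraic ℚ K
  let j : algebraicClosure ℚ K →ₐ[ℚ] ℂ := IsAlgClosed.lift
  have hρm := hmem ρ ⟨χ, hχ, hρ⟩
  have hρj : aeval (j ⟨ρ, hρm⟩) χ = 0 := by
    rw [Polynomial.aeval_algHom_apply]
    have h1 : aeval (⟨ρ, hρm⟩ : algebraicClosure ℚ K) χ = 0 := by
      apply (algebraMap (algebraicClosure ℚ K) K).injective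
      rw [← Polynomial.aeval_algebraMap_apply, map_zero]
      exact hρ
    rw [h1, map_zero]
  have h0 := hex s hs χ hχ hrank _ hρj
  have hzm : ∀ z : {z : K // ∃ i, aeval z (f i) = 0},
      (z : K) ∈ algebraicClosure ℚ K := by
    rintro ⟨z, i, hi⟩
    refine hmem z ⟨(f i).map (algebraMap ℤ ℚ), ?_, ?_⟩
    · exact ((hmon i).map _).ne_zero
    · rw [aeval_map_algebraMap]
      exact hi
  have hz : ∀ z : {z : K // ∃ i, aeval z (f i) = 0},
      ∃ i, aeval (j ⟨z, hzm z⟩) (f i) = 0 := by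
    rintro ⟨z, i, hi⟩
    refine ⟨i, ?_⟩
    have h2 := Polynomial.hom_eval₂ (f i) (algebraMap ℤ _)
      (j : algebraicClosure ℚ K →+* ℂ) ⟨z, hzm ⟨z, i, hi⟩⟩
    rw [RingHom.ext_int ((j : algebraicClosure ℚ K →+* ℂ).comp (algebraMap ℤ _))
      (algebraMap ℤ ℂ)] at h2
    have h3 : eval₂ (algebraMap ℤ (algebraicClosure ℚ K)) (⟨z, hzm ⟨z, i, hi⟩⟩ :
        algebraicClosure ℚ K) (f i) = 0 := by
      apply (algebraMap (algebraicClosure ℚ K) K).injective
      rw [map_zero, Polynomial.hom_eval₂, RingHom.ext_int ((algebraMap (algebraicClosure ℚ K)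
        K).comp (algebraMap ℤ _)) (algebraMap ℤ K)]
      exact hi
    rw [h3, map_zero] at h2
    exact h2.symm
  intro n c N hN hn ys hlen hrel hpw
  let φ : {z : K // ∃ i, aeval z (f i) = 0} →
      {z : ℂ // ∃ i, aeval z (f i) = 0} := fun z => ⟨j ⟨z, hzm z⟩, hz z⟩
  have hrel0 : ((ys.map (fun z : {z : K // ∃ i, aeval z (f i) = 0} =>
      (⟨z, hzm z⟩ : algebraicClosure ℚ K) ^ s)).prod * ⟨ρ, hρm⟩) ^ N = (((q : algebraicClosure ℚ K) ^ s) ^ c) ^ N := by
    apply (algebraMap (algebraicClosure ℚ K) K).injective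
    rw [map_pow, map_mul, _root_.map_list_prod, List.map_map, map_pow, map_zpow₀, map_pow,
      map_natCast]
    exact hrel
  refine h0 n c N hN hn (ys.map φ) (by rw [List.length_map, hlen]) ?_ ?_
  · have h4 := congrArg j hrel0
    rw [map_pow, map_mul, _root_.map_list_prod j, List.map_map, map_pow, map_zpow₀, map_pow,
      map_natCast] at h4
    rw [List.map_map, ← h4]
    congr 4
    funext z
    change (j ⟨z, hzm z⟩) ^ s = j (⟨z, hzm z⟩ ^ s)
    rw [map_pow]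
  · rw [List.pairwise_map]
    refine hpw.imp ?_
    intro a b hab h5
    apply hab
    change (j ⟨a, hzm a⟩) ^ s * (j ⟨b, hzm b⟩) ^ s = (q : ℂ) ^ s at h5
    have h6 : (⟨a, hzm a⟩ : algebraicClosure ℚ K) ^ s * ⟨b, hzm b⟩ ^ s =
        (q : algebraicClosure ℚ K) ^ s := by
      apply (j : algebraicClosure ℚ K →+* ℂ).injective
      rw [map_mul, map_pow, map_pow, map_pow, map_natCast]
      exact h5
    have h7 := congrArg (algebraMap (algebraicClosure ℚ K) K) h6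
    rw [map_mul, map_pow, map_pow, map_pow, map_natCast] at h7
    exact h7


variable {k : Type u} [Field k] {𝒱 : VarClass k} {C : TheoryData.{u, v, 0} 𝒱 ℚ} {K : Type w}
  [Field K] [CharZero K] {H : WeilTheoryData.{u, v, w} C K} [hC : IsChow C] [hH : IsWeil H]
  {A Z X Y : 𝒱.Obj}

variable {I : Type} [Finite I] {f : I → ℤ[X]} (hmon : ∀ i, (f i).Monic)
  (E : IntermediateField ℚ ℂ) {q : ℕ} (hq : 1 < q) (r : ℕ) (hex : Exact E q r f)

include hmon hq hex in
/-- **Existence of a good basis.** -/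
theorem exists_good_basis (hS : IsStandard H) {s : ℕ} (hs : 0 < s) {πA : A ⟶ A}
    (hA : IsAbelian H πA q s f) :
    ∃ (n : ℕ) (b : Basis (Fin n) K (H.A A)) (α : Fin n → K),
      (∀ t, H.pull πA (b t) = α t • b t) ∧ (∀ t, IsIntegral ℚ (α t)) ∧
      ∀ (χ : ℚ[X]), χ ≠ 0 → RankLEOver E r {ρ : ℂ | aeval ρ χ = 0} → ∀ ρ : K, aeval ρ χ = 0 →
        ∀ t (c : ℤ), α t * ρ = ((q ^ s : ℕ) : K) ^ c →
          ∃ l : ℕ, α t = ((q ^ s : ℕ) : K) ^ l ∧ b t ∈ NK H A l := by
  have hfin := hS.finite A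
  have hq0 : q ≠ 0 := by omega
  let val : {z : K // ∃ i, aeval z (f i) = 0} → K := fun z => (z : K) ^ s
  have hU : Submodule.span K {v : H.A A | v ∈ H.gr A 1 ∧ ∃ y, H.pull πA v = val y • v} =
      H.gr A 1 := by
    refine Eq.trans ?_ hA.eigen
    congr 1
    ext v
    constructor
    · rintro ⟨h1, ⟨z, i, hz⟩, h2⟩
      exact ⟨h1, i, z, hz, h2⟩
    · rintro ⟨h1, i, z, hz, h2⟩
      exact ⟨h1, ⟨z, i, hz⟩, h2⟩
  obtain ⟨n, b, α, hb⟩ := exists_basis (H.pull πA) val (H.gr A 1) hU hA.generated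
  have hQ : ((q ^ s : ℕ) : K) = (q : K) ^ s := by push_cast; rfl
  have hQ0 : (q : K) ^ s ≠ 0 := pow_ne_zero _ (by exact_mod_cast hq0)
  refine ⟨n, b, α, fun t => (hb t).1, fun t => ?_, ?_⟩
  · obtain ⟨-, L, -, -, hL⟩ := hb t
    rw [hL]
    clear hL
    induction L with
    | nil => simpa using isIntegral_one
    | cons a L ih =>
      rw [List.map_cons, List.prod_cons]
      refine IsIntegral.mul ?_ ih
      obtain ⟨i, hi⟩ := a.2.2
      have h1 : IsIntegral ℤ (a.2 : K) := ⟨f i, hmon i, hi⟩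
      exact (h1.tower_top (A := ℚ)).pow s
  · intro χ hχ hrank ρ hρ t c hc
    obtain ⟨-, L, hL1, hL2, hL3⟩ := hb t
    have hpair := exact_field hmon hex s hs χ hχ hrank ρ hρ
    have h1 := list_graded (H.pull πA) val ((q : K) ^ s) ρ hQ0 hpair (NK H A) one_mem_NK
      (fun a ha l b hb => by
        rw [add_comm l 1]
        exact mul_mem_NK ha hb)
      (H.gr A 1 : Set (H.A A)) (fun a ha b hb => hA.anticomm a b ha hb)
      (fun a ha b hb y y' h2 h3 h4 => by
        apply mem_NK_one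
        refine hA.tate (a * b) (H.mul_mem ha hb) ?_
        change H.pull πA (a * b) = _
        rw [map_mul, h2, h3, smul_mul_smul_comm, h4, hQ])
      L.length c 1 one_pos L rfl hL1 (by rw [pow_one, pow_one, ← hL3, ← hQ]; exact hc)
    obtain ⟨l, -, h2, h3⟩ := h1
    refine ⟨l, ?_, ?_⟩
    · rw [hL3, h2, hQ]
    · rw [hL2]
      exact h3

include hmon hq hex in
/-- **The Kunneth formula.** -/
theorem kunneth_main [IsAlgClosed K] (hS : IsStandard H) {s : ℕ} (hs : 0 < s) {πA : A ⟶ A}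
    {πZ : Z ⟶ Z} (hA : IsAbelian H πA q s f)
    (hZ : EigenRankLE E r (frob H πZ)) (hnil : Nilpotence H (A.prod Z)) :
    ∃ (J : Type) (_ : Fintype J) (deg : J → ℕ) (D E : J → C.A A), IsDual A Z deg D E ∧
      (∀ j, D j ∈ DivProd C A (deg j)) ∧
      ∀ T : CorrData C, IsCorrTheory T → ActsAsPower T (prodMap πA πZ) (q ^ s) →
        ∀ (i : ℤ) (m : T.M (A.prod Z)), m ∈ T.gr (A.prod Z) i →
          m = ∑ j, T.act (extBy C Z (D j)) (T.act (pairBy C Z (E j)) m) := by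
  obtain ⟨n, b, α, hb, hα, hgood⟩ := exists_good_basis hmon E hq r hex hS hs hA
  have hQ1 : 1 < q ^ s := Nat.one_lt_pow hs.ne' hq
  have hX1 : (Polynomial.X - 1 : ℚ[X]) ≠ 0 := by
    have := Polynomial.X_sub_C_ne_zero (1 : ℚ)
    rwa [map_one] at this
  have h1 : ∀ t (c : ℤ), α t = ((q ^ s : ℕ) : K) ^ c →
      ∃ l : ℕ, α t = ((q ^ s : ℕ) : K) ^ l ∧ b t ∈ NK H A l := by
    intro t c hc
    exact hgood _ hX1 (rank_one' E r) 1 (by rw [map_sub, aeval_X, map_one, sub_self]) t c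
      (by rw [mul_one]; exact hc)
  obtain ⟨J, hJ, deg, D, E', hdual, hD, hN⟩ := exists_dual hS hA.frobenius hQ1 b α hb h1 Z
  refine ⟨J, hJ, deg, D, E', hdual, hD, fun T hT hπ i m hm => ?_⟩
  obtain ⟨χ, hχ, hχe, hrank⟩ := hZ
  have hfinX : Module.Finite K (H.A (A.prod Z)) := hS.finite _
  obtain ⟨P, hP, m', hPm⟩ := exists_poly (frob H (prodMap πA πZ)) (((q ^ s : ℕ) : ℚ) ^ i) (by
    intro μ v hv0 hv
    refine integral_eigen hS b α hb hα ?_ μ v hv0 hv
    intro ρ v hv0 hv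
    exact (isAlgebraic_iff_isIntegral).1 ⟨χ, hχ, hχe ρ v hv0 hv⟩)
  refine kunneth_core hdual hT hπ hnil i P hP ?_ hm
  intro w
  apply act_proj_mix hdual hN
  rw [act_cl_polyC]
  refine mem_mix (πZ := πZ) hS b α hb (Q := q ^ s) (by omega) i ?_ m' _ ?_
  · intro t ρ v hv0 hv hc
    obtain ⟨l, -, hl⟩ := hgood χ hχ hrank ρ (hχe ρ v hv0 hv) t i hc
    exact ⟨l, hl⟩
  · have h2 := hPm w
    push_cast at h2 ⊢
    exact h2

end

end Pool.Agent.V7H95.Wl
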