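import Pool.Agent.V7H95.Wl.SgDefs
import Pool.Agent.V7H95.Wl.Kun

/-!
# The Tate conjecture for products of abelian varieties and arbitrary varieties over finite fields
-/

set_option autoImplicit false
set_option linter.unusedSectionVars false
set_option linter.unusedVariables false

open Polynomial

namespace Pool.Agent.V7H95.Wl

open Module Pool.Agent.W484.TB Pool.Agent.W484.HS Pool.Agent.W484.CH Pool.Agent.W484.AA

section linear

variable {K V M N : Type} [Field K] [AddCommGroup V] [Module K V] [AddCommGroup M] [Module K M]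
  [AddCommGroup N] [Module K N]

/-- The shifted endomorphism. -/
def sh {W : Type} [AddCommGroup W] [Module K W] (F : W →ₗ[K] W) (c : K) : Module.End K W :=
  F - c • LinearMap.id

theorem sh_apply {W : Type} [AddCommGroup W] [Module K W] (F : W →ₗ[K] W) (c : K) (w : W) :
    sh F c w = F w - c • w := rfl

theorem iter_lin {W : Type} [AddCommGroup W] [Module K W] (F : W →ₗ[K] W) (c : K) (n : ℕ) (w : W) :
    (fun y => F y - c • y)^[n] w = (sh F c ^ n) w := by
  rw [Module.End.pow_apply]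
  rfl

theorem expand {n : ℕ} (b : Basis (Fin n) K V) (α : Fin n → K) (T : V →ₗ[K] V)
    (hT : ∀ t, T (b t) = α t • b t) (cross : V →ₗ[K] M →ₗ[K] N)
    (honto : ∀ w : N, ∃ (n : ℕ) (x : Fin n → V) (z : Fin n → M), w = ∑ i, cross (x i) (z i))
    (hinj : ∀ (n : ℕ) (x : Fin n → V) (z : Fin n → M), LinearIndependent K x →
      ∑ i, cross (x i) (z i) = 0 → ∀ i, z i = 0) (FM : M →ₗ[K] M) (FN : N →ₗ[K] N)
    (κ : K) (hF : ∀ x z, FN (cross x z) = κ • cross (T x) (FM z)) (w : N) :
    ∃ m : Fin n → M, w = ∑ t, cross (b t) (m t) ∧ (∀ (μ : K) (k : ℕ),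
      (sh FN μ ^ k) w = 0 →
        ∀ t, (sh ((κ * α t) • FM) μ ^ k) (m t) = 0) ∧
      ∀ (gM : M →ₗ[K] M) (gN : N →ₗ[K] N), (∀ x z, gN (cross x z) = cross x (gM z)) →
        gN w = w → ∀ t, gM (m t) = m t := by
  have huniq : ∀ m : Fin n → M, ∑ t, cross (b t) (m t) = 0 → ∀ t, m t = 0 := fun m hm =>
    hinj n b m b.linearIndependent hm
  obtain ⟨N', x, z, hx⟩ := honto w
  have hw : w = ∑ t, cross (b t) (∑ i, b.repr (x i) t • z i) := by
    rw [hx]
    have h1 : ∀ i, cross (x i) (z i) = ∑ t, b.repr (x i) t • cross (b t) (z i) := by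
      intro i
      conv_lhs => rw [← b.sum_repr (x i)]
      rw [map_sum, LinearMap.sum_apply]
      refine Finset.sum_congr rfl fun t _ => ?_
      rw [map_smul, LinearMap.smul_apply]
    rw [Finset.sum_congr rfl fun i _ => h1 i, Finset.sum_comm]
    refine Finset.sum_congr rfl fun t _ => ?_
    rw [map_sum]
    refine Finset.sum_congr rfl fun i _ => ?_
    rw [map_smul]
  refine ⟨fun t => ∑ i, b.repr (x i) t • z i, hw, ?_, ?_⟩
  rotate_left
  · intro gM gN hg hgw t
    have h2 : ∑ t, cross (b t) (gM (∑ i, b.repr (x i) t • z i) - ∑ i, b.repr (x i) t • z i) = 0 := by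
      have h3 : gN w = ∑ t, cross (b t) (gM (∑ i, b.repr (x i) t • z i)) := by
        conv_lhs => rw [hw]
        rw [map_sum]
        exact Finset.sum_congr rfl fun t _ => hg _ _
      rw [Finset.sum_congr rfl fun t _ => map_sub (cross (b t)) _ _, Finset.sum_sub_distrib, ← h3,
        ← hw, hgw, sub_self]
    exact sub_eq_zero.1 (huniq _ h2 t)
  · intro μ k hk t
    have hstep : ∀ (k : ℕ) (m : Fin n → M), (sh FN μ ^ k)
        (∑ t, cross (b t) (m t)) =
        ∑ t, cross (b t) ((sh ((κ * α t) • FM) μ ^ k) (m t)) := by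
      intro k
      induction k with
      | zero => intro m; rfl
      | succ k ih =>
        intro m
        rw [pow_succ, Module.End.mul_apply]
        have h5 : sh FN μ (∑ t, cross (b t) (m t)) =
            ∑ t, cross (b t) (sh ((κ * α t) • FM) μ (m t)) := by
          rw [sh_apply, map_sum, Finset.smul_sum, ← Finset.sum_sub_distrib]
          refine Finset.sum_congr rfl fun t _ => ?_
          rw [hF, hT, sh_apply, LinearMap.smul_apply, map_sub, map_smul, map_smul, map_smul,
            LinearMap.smul_apply, smul_smul]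
        rw [h5, ih]
        refine Finset.sum_congr rfl fun t _ => ?_
        rw [pow_succ, Module.End.mul_apply]
    rw [hw, hstep] at hk
    exact huniq _ hk t

/-- The homogeneous component. -/
theorem component {D : ℤ → Submodule K N} (hD : DirectSum.IsInternal D) {ι : Type} [Fintype ι]
    (w : N) (i : ℤ) (hw : w ∈ D i) (v : ι → N) (deg : ι → ℤ) (hv : ∀ a, v a ∈ D (deg a))
    (hsum : w = ∑ a, v a) : w = ∑ a ∈ Finset.univ.filter (fun a => deg a = i), v a := by
  classical
  have hind : iSupIndep D := hD.submodule_iSupIndep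
  have h1 := (Finset.sum_filter_add_sum_filter_not Finset.univ (fun a => deg a = i) v)
  rw [← hsum] at h1
  have h2 : w - ∑ a ∈ Finset.univ.filter (fun a => deg a = i), v a =
      ∑ a ∈ Finset.univ.filter (fun a => ¬ deg a = i), v a := by
    rw [← h1]
    abel
  have h3 : w - ∑ a ∈ Finset.univ.filter (fun a => deg a = i), v a ∈ D i := by
    refine Submodule.sub_mem _ hw (Submodule.sum_mem _ fun a ha => ?_)
    have h4 := (Finset.mem_filter.1 ha).2
    rw [← h4]
    exact hv a
  have h5 : w - ∑ a ∈ Finset.univ.filter (fun a => deg a = i), v a ∈ ⨆ j ≠ i, D j := by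
    rw [h2]
    refine Submodule.sum_mem _ fun a ha => ?_
    have h6 := (Finset.mem_filter.1 ha).2
    exact Submodule.mem_iSup_of_mem (deg a) (Submodule.mem_iSup_of_mem h6 (hv a))
  have h7 := Submodule.disjoint_def.1 (hind i) _ h3 h5
  exact sub_eq_zero.1 h7

theorem sh_mem {D : ℤ → Submodule K M} {F : M →ₗ[K] M} (hF : ∀ i z, z ∈ D i → F z ∈ D i) (c : K)
    (n : ℕ) {i : ℤ} {y : M} (hy : y ∈ D i) : (sh F c ^ n) y ∈ D i := by
  induction n with
  | zero => exact hy
  | succ k ih =>
    rw [pow_succ', Module.End.mul_apply, sh_apply]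
    exact Submodule.sub_mem _ (hF i _ ih) (Submodule.smul_mem _ _ ih)

/-- Decomposition into components, which are killed by all homogeneous maps which kill the element. -/
theorem decomp {D : ℤ → Submodule K M} (hD : DirectSum.IsInternal D) (z : M) :
    ∃ f : ℤ →₀ M, (z = 0 → f = 0) ∧ (∀ i, f i ∈ D i) ∧
      (∀ T : M →ₗ[K] M, (∀ i y, y ∈ D i → T y ∈ D i) → T z = 0 → ∀ i, T (f i) = 0) ∧
      (f.sum fun _ y => y) = z := by
  classical
  by_cases h0 : z = 0
  · exact ⟨0, fun _ => rfl, fun i => (D i).zero_mem, fun T _ _ i => by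
      rw [Finsupp.zero_apply, map_zero], by rw [Finsupp.sum_zero_index, h0]⟩
  · have htop : z ∈ iSup D := by
      rw [hD.submodule_iSup_eq_top]
      trivial
    obtain ⟨f, hf, hs⟩ := (Submodule.mem_iSup_iff_exists_finsupp D z).1 htop
    refine ⟨f, fun h => absurd h h0, hf, fun T hT hz i => ?_, hs⟩
    have h1 := component hD (ι := f.support) (0 : M) i (D i).zero_mem
      (fun a => T (f a)) (fun a => a) (fun a => hT _ _ (hf _)) (by
        rw [← hz, ← hs, Finsupp.sum, map_sum]
        exact (Finset.sum_coe_sort f.support (fun a => T (f a))).symm)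
    by_cases hi : i ∈ f.support
    · rw [Finset.sum_eq_single_of_mem (⟨i, hi⟩ : f.support) (by simp)] at h1
      · exact h1.symm
      · intro a ha hne
        exfalso
        apply hne
        apply Subtype.ext
        exact (Finset.mem_filter.1 ha).2
    · rw [Finsupp.notMem_support_iff.1 hi, map_zero]

end linear

section main

variable {K : Type} [Field K] {P : ProductData K}

/-- The span of the products of `l` divisors. -/
def nk (P : ProductData K) (l : ℕ) : Submodule K P.H := Submodule.span K {x | IsDivisorProduct P l x}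

variable {q s : ℕ} {I : Type} [Finite I] {f : I → ℤ[X]}

theorem one_mem_nk : (1 : P.H) ∈ nk P 0 := Submodule.subset_span ⟨[], rfl, by simp, by simp⟩

theorem divisorProduct_mul {l m : ℕ} {x y : P.H} (hx : IsDivisorProduct P l x)
    (hy : IsDivisorProduct P m y) : IsDivisorProduct P (l + m) (x * y) := by
  obtain ⟨L, h1, h2, rfl⟩ := hx
  obtain ⟨L', h1', h2', rfl⟩ := hy
  refine ⟨L ++ L', by rw [List.length_append, h1, h1'], ?_, by rw [List.prod_append]⟩
  intro y hy
  rcases List.mem_append.1 hy with h | h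
  · exact h2 y h
  · exact h2' y h

theorem mul_mem_nk {l m : ℕ} {x y : P.H} (hx : x ∈ nk P l) (hy : y ∈ nk P m) :
    x * y ∈ nk P (l + m) := by
  have h1 : nk P l ≤ (nk P (l + m)).comap (LinearMap.mulRight K y) := by
    refine Submodule.span_le.2 fun a ha => ?_
    change a * y ∈ nk P (l + m)
    have h2 : nk P m ≤ (nk P (l + m)).comap (LinearMap.mulLeft K a) :=
      Submodule.span_le.2 fun b hb => Submodule.subset_span (divisorProduct_mul ha hb)
    exact h2 hy
  exact h1 hx

theorem divisorProduct_mem (hA : IsAbelianVariety P q s f) {l : ℕ} {x : P.H}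
    (hx : IsDivisorProduct P l x) :
    x ∈ P.degH (2 * l) ∧ P.frobH x = ((q ^ s : ℕ) : K) ^ (l : ℤ) • x := by
  obtain ⟨L, h1, h2, rfl⟩ := hx
  induction L generalizing l with
  | nil =>
    simp only [List.length_nil] at h1
    subst h1
    refine ⟨by simpa using hA.one_mem, by simp⟩
  | cons a L ih =>
    simp only [List.length_cons] at h1
    subst h1
    obtain ⟨h3, h4⟩ := ih rfl fun y hy => h2 y (List.mem_cons_of_mem _ hy)
    obtain ⟨h5, h6⟩ := hA.div_mem a (h2 a (by simp))
    rw [List.prod_cons]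
    constructor
    · have h7 := hA.mul_mem _ _ _ _ h5 h3
      rwa [show (2 : ℤ) + 2 * (L.length : ℤ) = 2 * ((L.length + 1 : ℕ) : ℤ) by push_cast; ring] at h7
    · have h6' : P.frobH a = ((q ^ s : ℕ) : K) ^ (1 : ℤ) • a := h6
      rw [map_mul, h6', h4, smul_mul_smul_comm, zpow_one, zpow_natCast, zpow_natCast, pow_succ']

theorem nk_mem (hA : IsAbelianVariety P q s f) {l : ℕ} {x : P.H} (hx : x ∈ nk P l) :
    x ∈ P.degH (2 * l) := by
  have h1 : nk P l ≤ P.degH (2 * l) := Submodule.span_le.2 fun y hy =>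
    (divisorProduct_mem hA hy).1
  exact h1 hx

theorem nk_eq_zero (hA : IsAbelianVariety P q s f) {l : ℕ} (hl : P.dim < l) {x : P.H}
    (hx : x ∈ nk P l) : x = 0 :=
  hA.top _ _ (by omega) (nk_mem hA hx)

variable (hmon : ∀ i, (f i).Monic) (E : IntermediateField ℚ ℂ) (hq : 1 < q) (r : ℕ)
  (hex : Exact E q r f)

include hmon hq hex in
/-- **Existence of a good basis.** -/
theorem good_basis [CharZero K] (hs : 0 < s) (hA : IsAbelianVariety P q s f) :
    ∃ (n : ℕ) (b : Basis (Fin n) K P.H) (α : Fin n → K),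
      (∀ t, P.frobH (b t) = α t • b t) ∧
      ∀ (χ : ℚ[X]), χ ≠ 0 → RankLEOver E r {ρ : ℂ | aeval ρ χ = 0} → ∀ ρ : K, aeval ρ χ = 0 →
        ∀ t (c : ℤ), α t * ρ = ((q ^ s : ℕ) : K) ^ c →
          ∃ l : ℕ, α t = ((q ^ s : ℕ) : K) ^ l ∧ b t ∈ nk P l := by
  have hfin := hA.finite
  have hq0 : q ≠ 0 := by omega
  let val : {z : K // ∃ i, aeval z (f i) = 0} → K := fun z => (z : K) ^ s
  have hU : Submodule.span K {v : P.H | v ∈ P.degH 1 ∧ ∃ y, P.frobH v = val y • v} =
      P.degH 1 := by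
    refine le_antisymm (Submodule.span_le.2 fun v hv => hv.1) fun v hv => ?_
    refine Submodule.span_mono ?_ (hA.spanned v hv)
    rintro y ⟨h1, i, z, hz, h2⟩
    exact ⟨h1, ⟨z, i, hz⟩, h2⟩
  obtain ⟨n, b, α, hb⟩ := exists_basis P.frobH val (P.degH 1) hU hA.generated
  have hQ : ((q ^ s : ℕ) : K) = (q : K) ^ s := by push_cast; rfl
  have hQ0 : (q : K) ^ s ≠ 0 := pow_ne_zero _ (by exact_mod_cast hq0)
  refine ⟨n, b, α, fun t => (hb t).1, ?_⟩
  intro χ hχ hrank ρ hρ t c hc
  obtain ⟨-, L, hL1, hL2, hL3⟩ := hb t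
  have hpair := exact_field hmon hex s hs χ hχ hrank ρ hρ
  have h1 := list_graded P.frobH val ((q : K) ^ s) ρ hQ0 hpair (nk P) one_mem_nk
    (fun a ha l b hb => by
      rw [add_comm l 1]
      exact mul_mem_nk ha hb)
    (P.degH 1 : Set P.H) (fun a ha b hb => hA.anticomm a b ha hb)
    (fun a ha b hb y y' h2 h3 h4 => by
      have h5 : a * b ∈ Submodule.span K P.div := by
        refine hA.tate (a * b) (hA.mul_mem _ _ _ _ ha hb) ?_
        change P.frobH (a * b) = ((q ^ s : ℕ) : K) ^ (1 : ℤ) • (a * b)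
        rw [map_mul, h2, h3, smul_mul_smul_comm, h4, hQ, zpow_one]
      refine (Submodule.span_le.2 fun c hc => Submodule.subset_span ?_) h5
      exact ⟨[c], rfl, fun y hy => by rw [List.mem_singleton.1 hy]; exact hc, by simp⟩)
    L.length c 1 one_pos L rfl hL1 (by rw [pow_one, pow_one, ← hL3, ← hQ]; exact hc)
  obtain ⟨l, -, h2, h3⟩ := h1
  refine ⟨l, ?_, ?_⟩
  · rw [hL3, h2, hQ]
  · rw [hL2]
    exact h3

include hmon hq hex in
/-- **Generalized eigenvectors of Frobenius in the homology of the product.** -/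
theorem expansion [CharZero K] (hs : 0 < s) (hA : IsAbelianVariety P q s f)
    (hP : IsHomologyOfProduct P (q ^ s)) (hr : HasEigenvaluesIn P.geoM P.frobM E r) (j : ℤ)
    (n : ℕ) (w : P.N) (hw : w ∈ P.degN (2 * j)) (hinv : IsInvariant P.geoN w) (hk : KilledBy P.frobN (q ^ s) (-j) n w) :
    w ∈ Submodule.span K {v | IsElementaryProduct P (q ^ s) j n v} := by
  classical
  obtain ⟨N, b, α, hb, hgood⟩ := good_basis hmon E hq r hex hs hA
  obtain ⟨χ, hχ, hχe, hrank⟩ := hr
  have hQ0 : ((q ^ s : ℕ) : K) ≠ 0 := by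
    have : q ^ s ≠ 0 := pow_ne_zero _ (by omega)
    exact_mod_cast this
  have hfin := hP.finite
  obtain ⟨m, hm, hmk, hmg⟩ := expand b α P.frobH.toLinearMap hb P.cross hP.kunneth.onto
    hP.kunneth.injective P.frobM P.frobN
    (((q ^ s : ℕ) : K) ^ (-(P.dim : ℤ))) (fun x z => hP.compatible.times_frob x z) w
  have hk' : (sh P.frobN (((q ^ s : ℕ) : K) ^ (-j)) ^ n) w = 0 := by
    rw [← iter_lin]
    exact hk
  have hkt := hmk _ _ hk'
  have hit : ∀ t, IsInvariant P.geoM (m t) := fun t g =>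
    hmg (P.geoM g) (P.geoN g) (fun x z => hP.compatible.times_geo g x z) (hinv g) t
  have hl : ∀ t, ∃ l : ℕ, (m t ≠ 0 → b t ∈ nk P l) ∧
      (sh P.frobM (((q ^ s : ℕ) : K) ^ (-(j - P.dim + l))) ^ n) (m t) = 0 := by
    intro t
    by_cases h0 : m t = 0
    · exact ⟨0, fun h => absurd h0 h, by rw [h0, map_zero]⟩
    set κ : K := ((q ^ s : ℕ) : K) ^ (-(P.dim : ℤ)) with hκ
    have hκ0 : κ ≠ 0 := zpow_ne_zero _ hQ0
    set μ : K := ((q ^ s : ℕ) : K) ^ (-j) with hμ
    have hμ0 : μ ≠ 0 := zpow_ne_zero _ hQ0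
    have hv : ∃ v : P.M, v ≠ 0 ∧ IsInvariant P.geoM v ∧ (κ * α t) • P.frobM v = μ • v := by
      by_contra hcon
      push Not at hcon
      have hinj : ∀ (k : ℕ), IsInvariant P.geoM ((sh ((κ * α t) • P.frobM) μ ^ k) (m t)) ∧
          (sh ((κ * α t) • P.frobM) μ ^ k) (m t) ≠ 0 := by
        intro k
        induction k with
        | zero => exact ⟨hit t, h0⟩
        | succ k ih =>
          rw [pow_succ', Module.End.mul_apply, sh_apply, LinearMap.smul_apply]
          refine ⟨fun g => ?_, fun h1 => hcon _ ih.2 ih.1 (sub_eq_zero.1 h1)⟩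
          rw [map_sub, map_smul, map_smul, hP.left.frob_invariant _ ih.1 g, ih.1 g]
      exact (hinj n).2 (hkt t)
    obtain ⟨v, hv0, hvi, hv⟩ := hv
    have hα0 : α t ≠ 0 := by
      intro h1
      rw [h1, mul_zero, zero_smul] at hv
      exact hv0 ((smul_eq_zero.1 hv.symm).resolve_left hμ0)
    have hρ : P.frobM v = (μ / (κ * α t)) • v := by
      have h1 : (κ * α t) ≠ 0 := mul_ne_zero hκ0 hα0
      rw [div_eq_inv_mul, mul_smul, ← hv, smul_smul, inv_mul_cancel₀ h1, one_smul]
    have hc : α t * (μ / (κ * α t)) = ((q ^ s : ℕ) : K) ^ ((P.dim : ℤ) - j) := by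
      have h1 : α t * (μ / (κ * α t)) = μ * κ⁻¹ := by
        field_simp
      rw [h1, hμ, hκ, ← zpow_neg, neg_neg, ← zpow_add₀ hQ0]
      congr 1
      ring
    obtain ⟨l, hl1, hl2⟩ := hgood χ hχ hrank _ (hχe _ v hv0 hvi hρ) t _ hc
    refine ⟨l, fun _ => hl2, ?_⟩
    have h2 := hkt t
    have h3 : sh ((κ * α t) • P.frobM) μ =
        (κ * α t) • sh P.frobM (((q ^ s : ℕ) : K) ^ (-(j - P.dim + l))) := by
      ext y
      rw [sh_apply, LinearMap.smul_apply, LinearMap.smul_apply, sh_apply, smul_sub, smul_smul]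
      congr 2
      rw [hκ, hμ, hl1, ← zpow_natCast, ← zpow_add₀ hQ0, ← zpow_add₀ hQ0]
      congr 1
      ring
    rw [h3, _root_.smul_pow, LinearMap.smul_apply] at h2
    exact (smul_eq_zero.1 h2).resolve_left (pow_ne_zero _ (mul_ne_zero hκ0 hα0))
  choose l hl1 hl2 using hl
  have hdec := fun t => decomp hP.left.graded (m t)
  choose z hz1 hz2 hz3' hz4 using hdec
  have hz3 : ∀ t i, (sh P.frobM (((q ^ s : ℕ) : K) ^ (-(j - P.dim + l t))) ^ n) (z t i) = 0 :=
    fun t i => hz3' t _ (fun i y hy => sh_mem hP.left.frob_mem _ n hy) (hl2 t) i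
  have hzg : ∀ t i, IsInvariant P.geoM (z t i) := by
    intro t i g
    have h1 := hz3' t (P.geoM g - LinearMap.id) (fun i y hy =>
      Submodule.sub_mem _ (hP.left.geo_mem g i y hy) hy) (by
        rw [LinearMap.sub_apply, LinearMap.id_apply, hit t g, sub_self]) i
    rw [LinearMap.sub_apply, LinearMap.id_apply, sub_eq_zero] at h1
    exact h1
  have hmem : ∀ a : (Σ t : Fin N, (z t).support), P.cross (b a.1) (z a.1 a.2) ∈
      P.degN ((a.2 : ℤ) + 2 * P.dim - 2 * l a.1) := by
    rintro ⟨t, i, hi⟩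
    have h1 : m t ≠ 0 := by
      intro h2
      have h3 := hz1 t h2
      rw [h3] at hi
      simp at hi
    exact hP.compatible.times_mem _ _ _ _ (nk_mem hA (hl1 t h1)) (hz2 t i)
  have hcomp := component hP.right.graded (ι := Σ t : Fin N, (z t).support) w (2 * j) hw
    (fun a => P.cross (b a.1) (z a.1 a.2)) (fun a => (a.2 : ℤ) + 2 * P.dim - 2 * l a.1) hmem (by
      rw [hm, Fintype.sum_sigma]
      refine Finset.sum_congr rfl fun t _ => ?_
      conv_lhs => rw [← hz4 t, Finsupp.sum, map_sum]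
      exact (Finset.sum_coe_sort (z t).support (fun a => P.cross (b t) (z t a))).symm)
  rw [hcomp]
  refine Submodule.sum_mem _ ?_
  rintro ⟨t, i, hi⟩ ha
  have hdeg : (i : ℤ) + 2 * P.dim - 2 * l t = 2 * j := (Finset.mem_filter.1 ha).2
  have h1 : m t ≠ 0 := by
    intro h2
    have h3 := hz1 t h2
    rw [h3] at hi
    simp at hi
  have hb1 := hl1 t h1
  have hlt : l t ≤ P.dim := by
    by_contra hcon
    exact b.ne_zero t (nk_eq_zero hA (by omega) hb1)
  have hzi : z t i ∈ P.degM (2 * (j - P.dim + l t)) := by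
    have h4 := hz2 t i
    have h5 : i = 2 * (j - P.dim + l t) := by omega
    rwa [← h5]
  have hzk : KilledBy P.frobM (q ^ s) (-(j - P.dim + l t)) n (z t i) :=
    (iter_lin P.frobM (((q ^ s : ℕ) : K) ^ (-(j - P.dim + l t))) n (z t i)).trans (hz3 t i)
  change P.cross (b t) (z t i) ∈ _
  unfold nk at hb1
  generalize b t = x at hb1
  induction hb1 using Submodule.span_induction with
  | mem c hc =>
    exact Submodule.subset_span ⟨l t, c, z t i, hlt, hc, hzi, hzg t i, hzk, rfl⟩
  | zero =>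
    rw [map_zero, LinearMap.zero_apply]
    exact Submodule.zero_mem _
  | add x y _ _ hx hy =>
    rw [map_add, LinearMap.add_apply]
    exact Submodule.add_mem _ hx hy
  | smul c x _ hx =>
    rw [map_smul, LinearMap.smul_apply]
    exact Submodule.smul_mem _ _ hx

theorem frobN_cross (hA : IsAbelianVariety P q s f) (hQ : ((q ^ s : ℕ) : K) ≠ 0)
    (hP : IsHomologyOfProduct P (q ^ s)) {l : ℕ} {x : P.H} (hx : IsDivisorProduct P l x)
    (z : P.M) {j : ℤ} : P.frobN (P.cross x z) - ((q ^ s : ℕ) : K) ^ (-j) • P.cross x z =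
      ((q ^ s : ℕ) : K) ^ ((l : ℤ) - P.dim) • P.cross x
        (P.frobM z - ((q ^ s : ℕ) : K) ^ (-(j - P.dim + l)) • z) := by
  have h1 := (divisorProduct_mem hA hx).2
  have h2 : P.frobN (P.cross x z) =
      ((q ^ s : ℕ) : K) ^ (-(P.dim : ℤ)) • P.cross (P.frobH x) (P.frobM z) :=
    hP.compatible.times_frob _ _
  rw [h2, h1, map_smul, LinearMap.smul_apply, smul_smul, ← zpow_add₀ hQ, map_sub, map_smul,
    smul_sub, smul_smul, ← zpow_add₀ hQ]
  congr 2
  · congr 1
    ring
  · congr 1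
    ring

include hmon hq hex in
theorem singular_of_exact : TateForSingularOver E q r f := by
  intro K _ _ s P hs hA hP hr j
  have hQ0 : ((q ^ s : ℕ) : K) ≠ 0 := by
    have : q ^ s ≠ 0 := pow_ne_zero _ (by omega)
    exact_mod_cast this
  have hexp := fun n w hw hi hk => expansion hmon E hq r hex hs hA hP hr j n w hw hi hk
  have hgeo : ∀ (x : P.H) (z : P.M), IsInvariant P.geoM z → IsInvariant P.geoN (P.cross x z) := by
    intro x z hz g
    have h1 : P.geoN g (P.cross x z) = P.cross x (P.geoM g z) := hP.compatible.times_geo g x z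
    rw [h1, hz g]
  obtain ⟨h, hh1, hd⟩ := hA.ample
  have hpow : ∀ l : ℕ, IsDivisorProduct P l (h ^ l) := fun l =>
    ⟨List.replicate l h, List.length_replicate, fun x hx => by
      rw [List.eq_of_mem_replicate hx]; exact hh1, by rw [List.prod_replicate]⟩
  have hpush : ∀ (l : ℕ) (z : P.M), l ≤ P.dim →
      P.cap (h ^ (P.dim - l)) (P.cross (h ^ l) z) = P.tr (h ^ P.dim) • z := by
    intro l z hl
    have h1 : P.cap (h ^ (P.dim - l)) (P.cross (h ^ l) z) =
        P.tr (h ^ (P.dim - l) * h ^ l) • z :=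
      hP.compatible.push_times (P.dim - l) l _ _ z (Nat.sub_add_cancel hl) (hpow _) (hpow _)
    rw [h1, ← pow_add, Nat.sub_add_cancel hl]
  refine ⟨hexp, ⟨?_, ?_⟩, ⟨?_, ?_⟩⟩
  · intro hT m hm1 hm2 z hz hzi hFz
    obtain ⟨l, hl⟩ := Int.eq_ofNat_of_zero_le (show 0 ≤ m + P.dim - j by omega)
    have hlg : l ≤ P.dim := by omega
    have h4 : j - P.dim + l = m := by omega
    have h1 : P.cross (h ^ l) z ∈ P.degN (2 * j) := by
      have h2 : P.cross (h ^ l) z ∈ P.degN (2 * m + 2 * (P.dim : ℤ) - 2 * l) :=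
        hP.compatible.times_mem _ _ _ _ (divisorProduct_mem hA (hpow l)).1 hz
      have h3 : 2 * m + 2 * (P.dim : ℤ) - 2 * l = 2 * j := by omega
      rwa [h3] at h2
    have h2 : P.frobN (P.cross (h ^ l) z) = ((q ^ s : ℕ) : K) ^ (-j) • P.cross (h ^ l) z := by
      have h3 := frobN_cross hA hQ0 hP (hpow l) z (j := j)
      have hFz' : P.frobM z = ((q ^ s : ℕ) : K) ^ (-m) • z := hFz
      rw [h4, hFz', sub_self, map_zero, smul_zero, sub_eq_zero] at h3
      exact h3
    have h3 := hT _ h1 (hgeo _ _ hzi) h2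
    have h5 : P.cap (h ^ (P.dim - l)) (P.cross (h ^ l) z) ∈ Submodule.span K (P.cycM m) := by
      have h6 : Submodule.span K (P.cycN j) ≤
          (Submodule.span K (P.cycM m)).comap (P.cap (h ^ (P.dim - l))) := by
        refine Submodule.span_le.2 fun c hc => ?_
        have h7 : P.cap (h ^ (P.dim - l)) c ∈
            Submodule.span K (P.cycM (j - ((P.dim - l : ℕ) : ℤ))) :=
          hP.compatible.push_cyc (P.dim - l) j _ c (hpow _) hc
        have h8 : j - ((P.dim - l : ℕ) : ℤ) = m := by omega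
        rw [h8] at h7
        exact h7
      exact h6 h3
    rw [hpush l z hlg] at h5
    have h6 := Submodule.smul_mem _ (P.tr (h ^ P.dim))⁻¹ h5
    rwa [smul_smul, inv_mul_cancel₀ hd, one_smul] at h6
  · intro hT w hw hwi hFw
    have h1 := hexp 1 w hw hwi (by
      rw [KilledBy, Function.iterate_one, hFw, sub_self])
    refine (Submodule.span_le.2 ?_) h1
    rintro _ ⟨l, D, z, hl, hD, hz, hzi, hk, rfl⟩
    rw [KilledBy, Function.iterate_one, sub_eq_zero] at hk
    have h2 := hT (j - P.dim + l) (by omega) (by omega) z hz hzi hk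
    have h3 : Submodule.span K (P.cycM (j - P.dim + l)) ≤
        (Submodule.span K (P.cycN j)).comap (P.cross D) := by
      refine Submodule.span_le.2 fun c hc => ?_
      have h7 : P.cross D c ∈ Submodule.span K (P.cycN (j - P.dim + l + P.dim - (l : ℤ))) :=
        hP.compatible.times_cyc l _ D c hD hc
      have h8 : j - P.dim + l + P.dim - (l : ℤ) = j := by ring
      rw [h8] at h7
      exact h7
    exact h3 h2
  · intro hT m hm1 hm2 z hz hzi hFz
    obtain ⟨l, hl⟩ := Int.eq_ofNat_of_zero_le (show 0 ≤ m + P.dim - j by omega)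
    have hlg : l ≤ P.dim := by omega
    have h4 : j - P.dim + l = m := by omega
    have h1 : P.cross (h ^ l) z ∈ P.degN (2 * j) := by
      have h2 : P.cross (h ^ l) z ∈ P.degN (2 * m + 2 * (P.dim : ℤ) - 2 * l) :=
        hP.compatible.times_mem _ _ _ _ (divisorProduct_mem hA (hpow l)).1 hz
      have h3 : 2 * m + 2 * (P.dim : ℤ) - 2 * l = 2 * j := by omega
      rwa [h3] at h2
    have hstep := fun z => frobN_cross hA hQ0 hP (hpow l) z (j := j)
    rw [h4] at hstep
    have h2 : KilledBy P.frobN (q ^ s) (-j) 2 (P.cross (h ^ l) z) := by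
      have h5 : P.frobM (P.frobM z - ((q ^ s : ℕ) : K) ^ (-m) • z) -
          ((q ^ s : ℕ) : K) ^ (-m) • (P.frobM z - ((q ^ s : ℕ) : K) ^ (-m) • z) = 0 := hFz
      change P.frobN (P.frobN (P.cross (h ^ l) z) -
        ((q ^ s : ℕ) : K) ^ (-j) • P.cross (h ^ l) z) - ((q ^ s : ℕ) : K) ^ (-j) •
        (P.frobN (P.cross (h ^ l) z) - ((q ^ s : ℕ) : K) ^ (-j) • P.cross (h ^ l) z) = 0
      rw [hstep z, map_smul, smul_comm (((q ^ s : ℕ) : K) ^ (-j)), ← smul_sub, hstep, h5,
        map_zero, smul_zero, smul_zero]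
    have h3 : P.frobN (P.cross (h ^ l) z) = ((q ^ s : ℕ) : K) ^ (-j) • P.cross (h ^ l) z :=
      hT _ h1 (hgeo _ _ hzi) h2
    have h6 := hstep z
    rw [h3, sub_self] at h6
    have h7 : P.cross (h ^ l) (P.frobM z - ((q ^ s : ℕ) : K) ^ (-m) • z) = 0 :=
      (smul_eq_zero.1 h6.symm).resolve_left (zpow_ne_zero _ hQ0)
    have h8 := hpush l (P.frobM z - ((q ^ s : ℕ) : K) ^ (-m) • z) hlg
    rw [h7, map_zero] at h8
    exact sub_eq_zero.1 ((smul_eq_zero.1 h8.symm).resolve_left hd)
  · intro hT w hw hwi hFw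
    have h1 := hexp 2 w hw hwi hFw
    rw [← sub_eq_zero]
    have h2 : w ∈ LinearMap.ker (sh P.frobN (((q ^ s : ℕ) : K) ^ (-j))) := by
      refine (Submodule.span_le.2 ?_) h1
      rintro _ ⟨l, D, z, hl, hD, hz, hzi, hk, rfl⟩
      have h3 : P.frobM z = ((q ^ s : ℕ) : K) ^ (-(j - P.dim + l)) • z :=
        hT (j - P.dim + l) (by omega) (by omega) z hz hzi hk
      have h4 := frobN_cross hA hQ0 hP hD z (j := j)
      rw [h3, sub_self, map_zero, smul_zero] at h4
      exact h4
    exact h2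

end main

end Pool.Agent.V7H95.Wl
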