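import Mathlib

/-!
# Families of Weil polynomials whose roots lie in regular blocks: definitions
-/

set_option autoImplicit false

namespace Pool.Agent.V7H95.Wl

open Polynomial

/-- The complex roots of the polynomials `f i`. -/
def roots {I : Type} (f : I → ℤ[X]) : Set ℂ := {z | ∃ i, aeval z (f i) = 0}

/-- The complex conjugate. (The conjugate of a root `x` of a Weil `q`-polynomial is `q / x`.) -/
noncomputable def bar (x : ℂ) : ℂ := starRingEnd ℂ x

/-- The numbers `x` and `y` are conjugate over `ℚ`. -/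
def AreConjugate (x y : ℂ) : Prop := ∃ σ : ℂ ≃+* ℂ, σ x = y

/-- The numbers `x` and `y` are *flipped*: some automorphism of the complex numbers fixes one of them
and maps the other one to its complex conjugate, or maps `x` to `y` and `y` to the complex conjugate
of `x`. -/
def AreFlipped (x y : ℂ) : Prop :=
  ∃ σ : ℂ ≃+* ℂ, (σ x = x ∧ σ y = bar y) ∨ (σ x = bar x ∧ σ y = y) ∨ (σ x = y ∧ σ y = bar x)

/-- A *block* in the set `S` of complex numbers, for the prime number `ℓ` and the group `P` of
automorphisms of the complex numbers: a finite subset `B` of `S` which does not contain the complex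
conjugate of one of its elements, which is stable under `P`, on which the elements of `P` act with
orders that are powers of `ℓ`, and whose elements are flipped against all elements of `S` outside of
`B` and the complex conjugate of `B`. -/
structure IsBlock (S : Set ℂ) (ℓ : ℕ) (P : Subgroup (ℂ ≃+* ℂ)) (B : Finset ℂ) : Prop where
  prime : ℓ.Prime
  subset : ∀ x ∈ B, x ∈ S
  half : ∀ x ∈ B, bar x ∉ B
  stable : ∀ σ ∈ P, ∀ x ∈ B, σ x ∈ B
  order : ∀ σ ∈ P, ∃ n : ℕ, ∀ x ∈ B, (σ ^ ℓ ^ n) x = x
  flipped : ∀ x ∈ B, ∀ y ∈ S, y ∉ B → bar y ∉ B → AreFlipped x y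

/-- The block is one orbit of `P`, and the sum over the block of the weights of some conjugates
`σ x` is not divisible by `ℓ`. -/
def IsOrbitRegular (ℓ : ℕ) (P : Subgroup (ℂ ≃+* ℂ)) (B : Finset ℂ) (u : ℂ → ℤ) : Prop :=
  (∀ x ∈ B, ∀ y ∈ B, ∃ σ ∈ P, σ x = y) ∧ ∃ σ : ℂ ≃+* ℂ, ¬ (ℓ : ℤ) ∣ ∑ x ∈ B, u (σ x)

/-- All functions modulo `ℓ` on the block which are invariant under `P` and orthogonal to all
translates of the weights vanish. -/
def IsRegularModulo (ℓ : ℕ) (P : Subgroup (ℂ ≃+* ℂ)) (B : Finset ℂ) (u : ℂ → ℤ) : Prop :=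
  ∀ t : ℂ → ZMod ℓ, (∀ σ ∈ P, ∀ x ∈ B, t (σ x) = t x) →
    (∀ σ : ℂ ≃+* ℂ, ∑ x ∈ B, t x * ((u (σ x) : ℤ) : ZMod ℓ) = 0) → ∀ x ∈ B, t x = 0

variable {p : ℕ} [Fact p.Prime] (ν : PadicAlgCl p ≃+* ℂ) (q : ℕ)

/-- The slope of `x`: the valuation given by the isomorphism `ν` of an algebraic closure of `ℚ_p`
with `ℂ`, normalised such that the slope of `q` is one. -/
noncomputable def slope (x : ℂ) : ℝ := Real.log ‖ν.symm x‖ / Real.log ‖(q : PadicAlgCl p)‖

/-- The integers `u x` are *weights* for the conjugates of the elements of `B`: for an integer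
`D > 0` and all these conjugates `x`, the number `u x` is `D (2 λ - 1)`, where `λ` is the slope
of `x`. -/
def IsWeight (B : Finset ℂ) (u : ℂ → ℤ) : Prop :=
  ∃ D : ℕ, 0 < D ∧ ∀ x ∈ B, ∀ σ : ℂ ≃+* ℂ, (u (σ x) : ℝ) = D * (2 * slope ν q (σ x) - 1)

/-- The number `x` belongs to a regular block. -/
def IsInRegularBlock (S : Set ℂ) (x : ℂ) : Prop :=
  ∃ (ℓ : ℕ) (P : Subgroup (ℂ ≃+* ℂ)) (B : Finset ℂ) (u : ℂ → ℤ), x ∈ B ∧ IsBlock S ℓ P B ∧
    IsWeight ν q B u ∧ (IsOrbitRegular ℓ P B u ∨ IsRegularModulo ℓ P B u)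

/-- The field `ℚ(x)` contains an imaginary quadratic field `K` such that `[ℚ(x) : K] = ℓ ^ k` is a power
of a prime number; the set `B` consists of the conjugates of `x` over `K` (such fields `K` correspond to
the partitions of the conjugates of `x` over `ℚ` into a set `B` and its complex conjugate which are
preserved by all automorphisms); the sum of the weights over `B` is not divisible by `ℓ`; and `x` is
flipped against the elements of `S` which are not conjugate to `x`. -/
def IsOverQuadratic (S : Set ℂ) (x : ℂ) : Prop :=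
  ∃ (ℓ k : ℕ) (B : Finset ℂ) (u : ℂ → ℤ), ℓ.Prime ∧ x ∈ B ∧ (∀ y ∈ B, AreConjugate x y) ∧
    (∀ y, AreConjugate x y → (y ∈ B ↔ bar y ∉ B)) ∧
    (∀ σ : ℂ ≃+* ℂ, (∃ y ∈ B, σ y ∈ B) → ∀ y ∈ B, σ y ∈ B) ∧
    B.card = ℓ ^ k ∧ IsWeight ν q B u ∧ ¬ (ℓ : ℤ) ∣ ∑ y ∈ B, u y ∧
    ∀ y ∈ S, ¬ AreConjugate x y → AreFlipped x y

/-- The degree of the number field `ℚ(x)`, the number of the conjugates of `x`, is `2 ℓ ^ k` with a prime
number `ℓ`; for each set `Φ` of conjugates of `x` which contains one element of each pair of complex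
conjugates the sum of the weights over `Φ` is not divisible by `ℓ`; and `x` is flipped against the
elements of `S` which are not conjugate to `x`. -/
def HasPrimePowerDegree (S : Set ℂ) (x : ℂ) : Prop :=
  ∃ (ℓ k : ℕ) (u : ℂ → ℤ), ℓ.Prime ∧ Nat.card {y : ℂ // AreConjugate x y} = 2 * ℓ ^ k ∧
    IsWeight ν q {x} u ∧
    (∀ Φ : Finset ℂ, (∀ y ∈ Φ, AreConjugate x y) →
      (∀ y, AreConjugate x y → (y ∈ Φ ↔ bar y ∉ Φ)) → ¬ (ℓ : ℤ) ∣ ∑ y ∈ Φ, u y) ∧
    ∀ y ∈ S, ¬ AreConjugate x y → AreFlipped x y

/-- The polynomials `f i` are monic, `q > 1` is a power of `p`, and all complex roots of the `f i`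
have absolute value `√q`, they are not real, and each of them belongs to a regular block in the set of
all roots, or the number field generated by it has prime power degree over an imaginary quadratic field
as in `IsOverQuadratic`, or twice a prime power degree over `ℚ` as in `HasPrimePowerDegree`. -/
structure IsRegularFamily {I : Type} (f : I → ℤ[X]) : Prop where
  power : ∃ a : ℕ, 0 < a ∧ q = p ^ a
  monic : ∀ i, (f i).Monic
  norm : ∀ x ∈ roots f, ‖x‖ ^ 2 = (q : ℝ)
  nonreal : ∀ x ∈ roots f, bar x ≠ x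
  regular : ∀ x ∈ roots f, IsInRegularBlock ν q (roots f) x ∨ IsOverQuadratic ν q (roots f) x ∨
    HasPrimePowerDegree ν q (roots f) x

/-- The number field `E` is independent of the roots of the `f i`: some automorphism of the complex
numbers over `E` acts as the complex conjugation on these roots (in other words, the intersection of
`E` with the field generated by the roots is real; this is so if `E` is contained in the field of real
numbers). -/
def IsIndependent (E : IntermediateField ℚ ℂ) {I : Type} (f : I → ℤ[X]) : Prop :=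
  ∃ τ : ℂ ≃+* ℂ, (∀ y ∈ E, τ y = y) ∧ ∀ x ∈ roots f, τ x = bar x

end Pool.Agent.V7H95.Wl
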