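import Pool.Agent.V7H95.Fin.Two
import Pool.Agent.V7H95.Wl.Defs
import Pool.Agent.V7H95.Syl.Sylow
import Pool.Agent.H925R2.Rational

/-!
# Multiplicities of Weil numbers in relations: blocks
-/

set_option autoImplicit false
set_option linter.unusedSectionVars false
set_option linter.unusedVariables false

namespace Pool.Agent.V7H95.Wl

open Module MulAction Pool.Agent.V7H95.Syl
open Pool.Agent.V7H95.Fin (block_rel block_mod)

noncomputable section

variable {p : ℕ} [Fact p.Prime] {ν : PadicAlgCl p ≃+* ℂ} {q : ℕ} {S : Finset ℂ}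

/-- A finite set of Weil numbers for `q` which is stable under automorphisms. -/
structure Sys (ν : PadicAlgCl p ≃+* ℂ) (q : ℕ) (S : Finset ℂ) : Prop where
  power : ∃ a : ℕ, 0 < a ∧ q = p ^ a
  stable : ∀ (σ : ℂ ≃+* ℂ), ∀ x ∈ S, σ x ∈ S
  mul_bar : ∀ x ∈ S, x * bar x = q
  nonreal : ∀ x ∈ S, bar x ≠ x

theorem bar_bar (x : ℂ) : bar (bar x) = x := star_star x

theorem Sys.q_ne (h : Sys ν q S) : (q : ℂ) ≠ 0 := by
  obtain ⟨a, ha, rfl⟩ := h.power
  push_cast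
  exact pow_ne_zero _ (by exact_mod_cast (Fact.out : p.Prime).ne_zero)

theorem Sys.lq_ne (h : Sys ν q S) : Real.log ‖(q : PadicAlgCl p)‖ ≠ 0 := by
  obtain ⟨a, ha, rfl⟩ := h.power
  have h1 : ‖((p ^ a : ℕ) : PadicAlgCl p)‖ = ((p : ℝ) ^ a)⁻¹ := by
    have h2 : ((p ^ a : ℕ) : PadicAlgCl p) =
        (algebraMap ℚ_[p] (PadicAlgCl p)) ((p : ℚ_[p]) ^ a) := by
      push_cast
      rfl
    rw [h2, PadicAlgCl.norm_extends, norm_pow, Padic.norm_p, inv_pow]
  rw [h1, Real.log_inv, neg_ne_zero]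
  have h3 : (1 : ℝ) < (p : ℝ) ^ a :=
    one_lt_pow₀ (by exact_mod_cast (Fact.out : p.Prime).one_lt) ha.ne'
  exact (Real.log_pos h3).ne'

theorem Sys.bar_mem (h : Sys ν q S) {x : ℂ} (hx : x ∈ S) : bar x ∈ S :=
  h.stable (starRingAut : RingAut ℂ) x hx

theorem Sys.ne (h : Sys ν q S) {x : ℂ} (hx : x ∈ S) : x ≠ 0 := by
  rintro rfl
  have h1 := h.mul_bar _ hx
  rw [zero_mul] at h1
  exact h.q_ne h1.symm

theorem Sys.map_bar (h : Sys ν q S) (σ : ℂ ≃+* ℂ) {x : ℂ} (hx : x ∈ S) :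
    σ (bar x) = bar (σ x) := by
  have h1 := congrArg σ (h.mul_bar _ hx)
  rw [map_mul, map_natCast, ← h.mul_bar _ (h.stable σ x hx)] at h1
  exact mul_left_cancel₀ (h.ne (h.stable σ x hx)) h1

theorem Sys.slope_mul (h : Sys ν q S) (x : ℂ) :
    slope ν q x * Real.log ‖(q : PadicAlgCl p)‖ = Real.log ‖ν.symm x‖ := by
  unfold slope
  exact div_mul_cancel₀ _ h.lq_ne

theorem nrm_ne {x : ℂ} (hx : x ≠ 0) : ‖ν.symm x‖ ≠ 0 := by
  rw [norm_ne_zero_iff]
  exact (map_ne_zero_iff _ ν.symm.injective).2 hx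

/-- The slopes of complex conjugate numbers. -/
theorem Sys.slope_bar (h : Sys ν q S) {x : ℂ} (hx : x ∈ S) :
    slope ν q (bar x) = 1 - slope ν q x := by
  have h1 := congrArg (fun y => Real.log ‖ν.symm y‖) (h.mul_bar _ hx)
  rw [map_mul, norm_mul, Real.log_mul (nrm_ne (h.ne hx)) (nrm_ne (h.ne (h.bar_mem hx))),
    map_natCast, ← h.slope_mul, ← h.slope_mul] at h1
  have h2 : (slope ν q x + slope ν q (bar x)) * Real.log ‖(q : PadicAlgCl p)‖ =
      1 * Real.log ‖(q : PadicAlgCl p)‖ := by rw [add_mul, h1, one_mul]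
  have h3 := mul_right_cancel₀ h.lq_ne h2
  linarith

/-- There are integral weights. -/
theorem Sys.exists_weight (h : Sys ν q S) : ∃ (N : ℕ) (W : ℂ → ℤ), 0 < N ∧
    ∀ x ∈ S, (W x : ℝ) = N * (2 * slope ν q x - 1) := by
  classical
  have h0 : ∃ b : ℚ, b ≠ 0 ∧ Real.log ‖(q : PadicAlgCl p)‖ = b * Real.log p := by
    obtain ⟨b, hb⟩ := Pool.Agent.H925R2.log_norm_rational p (q : PadicAlgCl p) (by
      obtain ⟨a, ha, rfl⟩ := h.power
      push_cast
      exact pow_ne_zero _ (by exact_mod_cast (Fact.out : p.Prime).ne_zero))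
    refine ⟨b, ?_, hb⟩
    rintro rfl
    apply h.lq_ne
    rw [hb, Rat.cast_zero, zero_mul]
  obtain ⟨b, hb0, hb⟩ := h0
  have hlogp : Real.log (p : ℝ) ≠ 0 :=
    (Real.log_pos (by exact_mod_cast (Fact.out : p.Prime).one_lt)).ne'
  have h1 : ∀ x : S, ∃ r : ℚ, slope ν q x.1 = r := by
    intro x
    obtain ⟨r, hr⟩ := Pool.Agent.H925R2.log_norm_rational p (ν.symm x.1)
      ((map_ne_zero_iff _ ν.symm.injective).2 (h.ne x.2))
    refine ⟨r / b, ?_⟩
    unfold slope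
    rw [hr, hb]
    push_cast
    have hb' : (b : ℝ) ≠ 0 := by exact_mod_cast hb0
    field_simp
  choose r hr using h1
  let N : ℕ := ∏ x : S, (r x).den
  have hN0 : 0 < N := Finset.prod_pos fun x _ => (r x).den_pos
  have h2 : ∀ x : S, ∃ k : ℤ, (N : ℝ) * (2 * slope ν q x.1 - 1) = k := by
    intro x
    have h3 : (r x).den ∣ N := Finset.dvd_prod_of_mem _ (Finset.mem_univ x)
    obtain ⟨t, ht⟩ := h3
    refine ⟨2 * ((r x).num * t) - N, ?_⟩
    have h4 : r x * N = (((r x).num * t : ℤ) : ℚ) := by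
      rw [ht]
      push_cast
      rw [← mul_assoc, Rat.mul_den_eq_num]
    have h5 : (r x : ℝ) * N = (((r x).num * t : ℤ) : ℝ) := by
      have := congrArg (Rat.cast (K := ℝ)) h4
      push_cast at this
      push_cast
      exact this
    rw [hr x, Int.cast_sub, Int.cast_mul, ← h5]
    push_cast
    ring
  refine ⟨N, fun x => ⌊(N : ℝ) * (2 * slope ν q x - 1)⌋, hN0, fun x hx => ?_⟩
  obtain ⟨k, hk⟩ := h2 ⟨x, hx⟩
  beta_reduce
  rw [hk, Int.floor_intCast]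

/-- The action on the complex numbers. -/
@[reducible] def cAct : MulAction (ℂ ≃+* ℂ) ℂ where
  smul σ x := σ x
  one_smul _ := rfl
  mul_smul _ _ _ := rfl

attribute [local instance] cAct

theorem cact_def (σ : ℂ ≃+* ℂ) (x : ℂ) : σ • x = σ x := rfl

/-- **The part of a relation on a block.** -/
theorem Sys.rel_block (h : Sys ν q S) {m : ℂ → ℤ}
    (hm : ∀ σ : ℂ ≃+* ℂ, ∑ x ∈ S, (m x : ℝ) * (2 * slope ν q (σ x) - 1) = 0) {B : Finset ℂ}
    (heig : ∀ x ∈ B, x ∈ S) (hhalf : ∀ x ∈ B, bar x ∉ B)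
    (hflip : ∀ x ∈ B, ∀ y ∈ S, y ∉ B → bar y ∉ B → AreFlipped x y)
    {u : ℂ → ℤ} (hu : IsWeight ν q B u) (σ : ℂ ≃+* ℂ) :
    ∑ x ∈ B, (m x - m (bar x)) * u (σ • x) = 0 := by
  classical
  obtain ⟨N, W, hN, hW⟩ := h.exists_weight
  obtain ⟨D, hD, hu⟩ := hu
  have hWb : ∀ x ∈ S, W (bar x) = -W x := by
    intro x hx
    have h1 := hW _ (h.bar_mem hx)
    rw [h.slope_bar hx] at h1
    have h2 := hW _ hx
    have h3 : ((W (bar x) : ℤ) : ℝ) = ((-W x : ℤ) : ℝ) := by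
      rw [h1, Int.cast_neg, h2]
      ring
    exact_mod_cast h3
  have hrelS : ∀ σ : ℂ ≃+* ℂ, ∑ x ∈ S, m x * W (σ x) = 0 := by
    intro σ
    have h1 : ((∑ x ∈ S, m x * W (σ x) : ℤ) : ℝ) =
        N * ∑ x ∈ S, (m x : ℝ) * (2 * slope ν q (σ x) - 1) := by
      push_cast
      rw [Finset.mul_sum]
      refine Finset.sum_congr rfl fun x hx => ?_
      rw [hW _ (h.stable σ x hx)]
      ring
    rw [hm σ, mul_zero] at h1
    exact_mod_cast h1
  have hmain := block_rel (Γ := ℂ ≃+* ℂ) (X := ℂ) (cb := bar) (S := (S : Set ℂ)) (W := W)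
    (c := fun x => m x - m (bar x)) S.finite_toSet (fun σ x hx => h.stable σ x hx)
    (fun x hx => h.bar_mem hx)
    (fun x _ => bar_bar x) (fun σ x hx => h.map_bar σ hx)
    (fun x hx => hWb x hx) (fun x _ => by
      simp only [bar_bar]
      ring)
    (fun σ => by
      rw [finsum_mem_coe_finset]
      have h1 : ∑ x ∈ S, m (bar x) * W (σ x) = 0 := by
        have h2 : ∑ x ∈ S, m (bar x) * W (σ x) = ∑ x ∈ S, m x * W (σ (bar x)) := by
          refine Finset.sum_bij' (fun x _ => bar x) (fun x _ => bar x) (fun x hx => h.bar_mem hx)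
            (fun x hx => h.bar_mem hx)
            (fun x _ => bar_bar x) (fun x _ => bar_bar x) fun x hx => ?_
          rw [bar_bar]
        rw [h2, ← neg_eq_zero, ← Finset.sum_neg_distrib, ← hrelS σ]
        refine Finset.sum_congr rfl fun x hx => ?_
        rw [h.map_bar σ hx, hWb _ (h.stable σ x hx)]
        ring
      have h3 := hrelS σ
      simp only [cact_def, sub_mul, Finset.sum_sub_distrib]
      rw [h3, h1, sub_zero])
    B heig hhalf
    (fun x hx y hy h1 h2 => hflip x hx y hy h1 h2)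
  have h1 := hmain σ
  have h2 : (N : ℝ) * ∑ x ∈ B, ((m x - m (bar x) : ℤ) : ℝ) * (u (σ • x) : ℝ) =
      D * ∑ x ∈ B, ((m x - m (bar x) : ℤ) : ℝ) * (W (σ • x) : ℝ) := by
    rw [Finset.mul_sum, Finset.mul_sum]
    refine Finset.sum_congr rfl fun x hx => ?_
    have h3 := hu x hx σ
    have h4 := hW _ (h.stable σ x (heig x hx))
    rw [cact_def, h3, h4]
    ring
  have h5 : ∑ x ∈ B, ((m x - m (bar x) : ℤ) : ℝ) * (W (σ • x) : ℝ) = 0 := by
    exact_mod_cast h1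
  rw [h5, mul_zero] at h2
  have h6 := (mul_eq_zero.1 h2).resolve_left (by exact_mod_cast hN.ne')
  exact_mod_cast h6

/-- **Multiplicities on regular blocks.** -/
theorem Sys.mult_block (hS : Sys ν q S) {m : ℂ → ℤ}
    (hm : ∀ σ : ℂ ≃+* ℂ, ∑ x ∈ S, (m x : ℝ) * (2 * slope ν q (σ x) - 1) = 0) {x : ℂ}
    (hx : IsInRegularBlock ν q (S : Set ℂ) x) : m x = m (bar x) := by
  classical
  obtain ⟨ℓ, P, B, u, hxB, hB, hu, hcrit⟩ := hx
  have _ : Fact ℓ.Prime := ⟨hB.prime⟩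
  have hfin := block_mod (Γ := ℂ ≃+* ℂ) (X := ℂ) (W := u)
    (c := fun x => m x - m (bar x)) B ℓ P hB.stable hB.order
    (by
      rcases hcrit with ⟨h1, h2⟩ | h
      · exact crit_orbit (Γ := ℂ ≃+* ℂ) (X := ℂ) h1 h2
      · exact h) (hS.rel_block hm hB.subset hB.half hB.flipped hu) x hxB
  linarith

theorem conj_bar {x y : ℂ} (h : AreConjugate x y) : AreConjugate x (bar y) := by
  obtain ⟨σ, rfl⟩ := h
  exact ⟨(starRingAut : RingAut ℂ) * σ, rfl⟩

theorem conj_move (σ : ℂ ≃+* ℂ) {x y : ℂ} (h : AreConjugate x y) : AreConjugate x (σ y) := by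
  obtain ⟨τ, rfl⟩ := h
  exact ⟨σ * τ, rfl⟩

/-- Translation of a flip. -/
theorem Sys.flip_move (hS : Sys ν q S) (a : ℂ ≃+* ℂ) {x z : ℂ} (hx : x ∈ S) (hz : z ∈ S)
    (h : AreFlipped x (a⁻¹ z)) : AreFlipped (a x) z := by
  obtain ⟨τ, hτ⟩ := h
  have h5 : a (a⁻¹ z) = z := smul_inv_smul a z
  have h7 : a⁻¹ (a x) = x := inv_smul_smul a x
  have hz' : a⁻¹ z ∈ S := hS.stable a⁻¹ z hz
  have e1 : (a * τ * a⁻¹) (a x) = a (τ x) := by
    change a (τ (a⁻¹ (a x))) = _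
    rw [h7]
  have e2 : (a * τ * a⁻¹) z = a (τ (a⁻¹ z)) := rfl
  refine ⟨a * τ * a⁻¹, ?_⟩
  rw [e1, e2]
  rcases hτ with ⟨t1, t2⟩ | ⟨t1, t2⟩ | ⟨t1, t2⟩
  · left
    rw [t1, t2, hS.map_bar a hz', h5]
    exact ⟨rfl, rfl⟩
  · right; left
    rw [t1, t2, hS.map_bar a hx, h5]
    exact ⟨rfl, rfl⟩
  · right; right
    rw [t1, t2, hS.map_bar a hx, h5]
    exact ⟨rfl, rfl⟩

theorem Sys.flip_conj (hS : Sys ν q S) {x : ℂ} (hx : x ∈ S)
    (hflip : ∀ y ∈ S, ¬ AreConjugate x y → AreFlipped x y) {y z : ℂ}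
    (hy : AreConjugate x y) (hz : z ∈ S) (h3 : ¬ AreConjugate x z) :
    AreFlipped y z := by
  obtain ⟨a, rfl⟩ := hy
  refine hS.flip_move a hx hz (hflip (a⁻¹ z) (hS.stable a⁻¹ z hz) ?_)
  · rintro ⟨b, hb⟩
    refine h3 ⟨a * b, ?_⟩
    change a (b x) = z
    rw [hb]
    exact smul_inv_smul a z

/-- **Multiplicities of the eigenvalues which generate a field of degree `2 ℓ ^ k`.** -/
theorem Sys.mult_degree (hS : Sys ν q S) {m : ℂ → ℤ}
    (hm : ∀ σ : ℂ ≃+* ℂ, ∑ x ∈ S, (m x : ℝ) * (2 * slope ν q (σ x) - 1) = 0) {x : ℂ} (hx : x ∈ S)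
    (h : HasPrimePowerDegree ν q (S : Set ℂ) x) : m x = m (bar x) := by
  classical
  obtain ⟨ℓ, k, u, hℓ, hcard, ⟨D, hD, hu⟩, hΦ, hflip⟩ := h
  have _ : Fact ℓ.Prime := ⟨hℓ⟩
  have heig : ∀ y, AreConjugate x y → y ∈ S := by
    rintro y ⟨σ, rfl⟩
    exact hS.stable σ x hx
  have hner : ∀ y, AreConjugate x y → bar y ≠ y := fun y hy => hS.nonreal y (heig y hy)
  let O : Finset ℂ := S.filter (AreConjugate x)
  have hO : ∀ y, y ∈ O ↔ AreConjugate x y := by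
    intro y
    rw [Finset.mem_filter]
    exact ⟨fun h => h.2, fun h => ⟨heig y h, h⟩⟩
  let inv : O → O := fun y => ⟨bar y.1, (hO _).2 (conj_bar ((hO _).1 y.2))⟩
  have hinv : ∀ y, inv (inv y) = y := fun y => Subtype.ext (bar_bar y.1)
  have hne : ∀ y, inv y ≠ y := fun y h => hner y.1 ((hO _).1 y.2) (congrArg Subtype.val h)
  let _ : MulAction (ℂ ≃+* ℂ) O :=
    { smul := fun σ y => ⟨σ y.1, (hO _).2 (conj_move σ ((hO _).1 y.2))⟩
      one_smul := fun y => rfl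
      mul_smul := fun a b y => rfl }
  have hval : ∀ (σ : ℂ ≃+* ℂ) (y : O), (σ • y).1 = σ y.1 := fun _ _ => rfl
  let G : Subgroup (Equiv.Perm O) := (MulAction.toPermHom (ℂ ≃+* ℂ) O).range
  have hGval : ∀ g : G, ∃ σ : ℂ ≃+* ℂ, ∀ y : O, (g • y).1 = σ y.1 := by
    rintro ⟨g, σ, rfl⟩
    exact ⟨σ, fun y => rfl⟩
  have _ : MulAction.IsPretransitive G O := by
    refine ⟨fun y z => ?_⟩
    obtain ⟨a, ha⟩ := (hO _).1 y.2
    obtain ⟨b, hb⟩ := (hO _).1 z.2
    refine ⟨⟨MulAction.toPermHom (ℂ ≃+* ℂ) O (b * a⁻¹), b * a⁻¹, rfl⟩, Subtype.ext ?_⟩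
    change b (a⁻¹ y.1) = z.1
    rw [← ha, ← hb]
    exact congrArg b (inv_smul_smul a x)
  have hcardO : Fintype.card O = 2 * ℓ ^ k := by
    rw [← hcard, ← Nat.card_eq_fintype_card]
    exact Nat.card_congr (Equiv.subtypeEquivRight fun y => hO y)
  have huc : ∀ y, AreConjugate x y → (u y : ℝ) = D * (2 * slope ν q y - 1) := by
    rintro y ⟨σ, rfl⟩
    exact hu x (Finset.mem_singleton_self x) σ
  have hub : ∀ y, AreConjugate x y → u (bar y) = -u y := by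
    intro y hy
    have h1 := huc _ (conj_bar hy)
    rw [hS.slope_bar (heig y hy)] at h1
    have h3 : ((u (bar y) : ℤ) : ℝ) = ((-u y : ℤ) : ℝ) := by
      rw [h1, Int.cast_neg, huc y hy]
      ring
    exact_mod_cast h3
  -- the relation on a half
  obtain ⟨Ψ, hΨ⟩ := Pool.Agent.H925R2.exists_isHalf hinv hne
  have hmem : ∀ (Φ : Finset O) (y : O), y.1 ∈ Φ.map (Function.Embedding.subtype _) ↔ y ∈ Φ := by
    intro Φ y
    rw [Finset.mem_map]
    constructor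
    · rintro ⟨z, hz, hzy⟩
      have e : z = y := Subtype.ext hzy
      rwa [← e]
    · intro hy
      exact ⟨y, hy, rfl⟩
  have hsub : ∀ (Φ : Finset O), ∀ y ∈ Φ.map (Function.Embedding.subtype _), y ∈ O := by
    intro Φ y hy
    rw [Finset.mem_map] at hy
    obtain ⟨z, hz, rfl⟩ := hy
    exact z.2
  have hrel : ∀ σ : ℂ ≃+* ℂ, ∑ y : O, (m y.1 - m (bar y.1)) * u (σ y.1) = 0 := by
    intro σ
    have h1 := hS.rel_block hm (B := Ψ.map (Function.Embedding.subtype _))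
      (fun y hy => heig y ((hO y).1 (hsub Ψ y hy)))
      (fun y hy h => by
        have h2 := (hmem Ψ ⟨y, hsub Ψ y hy⟩).1 hy
        have h3 := (hmem Ψ (inv ⟨y, hsub Ψ y hy⟩)).1 h
        exact (hΨ _).1 h2 h3)
      (fun y hy z hz h1 h2 => by
        refine hS.flip_conj hx hflip ((hO y).1 (hsub Ψ y hy)) hz fun h3 => ?_
        have h4 : (⟨z, (hO z).2 h3⟩ : O) ∉ Ψ := fun h => h1 ((hmem Ψ ⟨z, (hO z).2 h3⟩).2 h)
        rw [hΨ, not_not] at h4
        exact h2 ((hmem Ψ (inv ⟨z, (hO z).2 h3⟩)).2 h4))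
      (u := u) ⟨D, hD, fun y hy τ => huc _ (conj_move τ ((hO y).1 (hsub Ψ y hy)))⟩ σ
    rw [Finset.sum_map] at h1
    have h2 := hΨ.sum_symm hinv (fun y : O => (m y.1 - m (bar y.1)) * u (σ y.1))
      (fun y => by
        change (m (bar y.1) - m (bar (bar y.1))) * u (σ (bar y.1)) = _
        rw [bar_bar, hS.map_bar σ (heig _ ((hO _).1 y.2)), hub _ (conj_move σ ((hO _).1 y.2))]
        ring)
    rw [h2]
    have h3 : ∑ y ∈ Ψ, (m y.1 - m (bar y.1)) * u (σ y.1) = 0 := h1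
    rw [h3, add_zero]
  have hfin := Pool.Agent.H925R2.core (G := G) (R := O) (inv := inv) hinv hne
    (by
      intro g y
      obtain ⟨σ, hσ⟩ := hGval g
      apply Subtype.ext
      rw [hσ]
      change σ (bar y.1) = bar (g • y).1
      rw [hσ, hS.map_bar σ (heig _ ((hO _).1 y.2))])
    ℓ k hcardO (fun y => u y.1) (fun y => m y.1 - m (bar y.1))
    (fun y => hub _ ((hO _).1 y.2))
    (fun y => by
      change m (bar y.1) - m (bar (bar y.1)) = _
      rw [bar_bar]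
      ring)
    (by
      intro Φ hhalf hdvd
      refine hΦ (Φ.map (Function.Embedding.subtype _)) (fun y hy => (hO y).1 (hsub Φ y hy)) ?_ ?_
      · intro y hy
        have h1 := hmem Φ ⟨y, (hO y).2 hy⟩
        have h2 := hmem Φ (inv ⟨y, (hO y).2 hy⟩)
        have h3 := hhalf ⟨y, (hO y).2 hy⟩
        change y ∈ _ ↔ _ at h1
        change bar y ∈ _ ↔ _ at h2
        rw [h1, h2]
        exact h3
      · rw [Finset.sum_map]
        exact hdvd)
    (by
      intro g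
      obtain ⟨σ, hσ⟩ := hGval g
      rw [← hrel σ]
      refine Finset.sum_congr rfl fun y _ => ?_
      rw [hσ])
    ⟨x, (hO x).2 ⟨1, rfl⟩⟩
  have h9 : m x - m (bar x) = 0 := hfin
  linarith

/-- Eigenvalues of prime power degree over an imaginary quadratic field belong to regular blocks. -/
theorem Sys.regular_of_quadratic (hS : Sys ν q S) {x : ℂ} (hx : x ∈ S)
    (h : IsOverQuadratic ν q (S : Set ℂ) x) : IsInRegularBlock ν q (S : Set ℂ) x := by
  obtain ⟨ℓ, k, B, u, hℓ, hxB, hsub, hhalf, hblock, hcard, hu, hsum, hflip⟩ := h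
  have _ : Fact ℓ.Prime := ⟨hℓ⟩
  have heig : ∀ y ∈ B, y ∈ S := by
    intro y hy
    obtain ⟨σ, rfl⟩ := hsub y hy
    exact hS.stable σ x hx
  let H : Subgroup (ℂ ≃+* ℂ) :=
    { carrier := {σ | ∀ y ∈ B, σ y ∈ B}
      mul_mem' := fun {a b} ha hb y hy => ha _ (hb y hy)
      one_mem' := fun y hy => hy
      inv_mem' := fun {a} ha => hblock a⁻¹ ⟨a x, ha x hxB, by
        have e : a⁻¹ (a x) = x := inv_smul_smul a x
        rw [e]
        exact hxB⟩ }
  have htr : ∀ y ∈ B, ∀ z ∈ B, ∃ σ ∈ H, σ • y = z := by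
    intro y hy z hz
    obtain ⟨a, ha⟩ := hsub y hy
    obtain ⟨b, hb⟩ := hsub z hz
    have e : (b * a⁻¹) • y = z := by
      have e1 : a • x = y := ha
      have e2 : b • x = z := hb
      rw [mul_smul, ← e1, inv_smul_smul, e2]
    refine ⟨b * a⁻¹, hblock _ ⟨y, hy, ?_⟩, e⟩
    change (b * a⁻¹) • y ∈ B
    rw [e]
    exact hz
  obtain ⟨P, hP1, hP2, hP3⟩ := exists_sylow (Γ := ℂ ≃+* ℂ)
    (X := ℂ) ℓ k B H (fun σ hσ => hσ) htr hcard
  refine ⟨ℓ, P, B, u, hxB, ⟨hℓ, heig, fun y hy => (hhalf y (hsub y hy)).1 hy, hP1, hP2, ?_⟩, hu,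
    Or.inl ⟨hP3, 1, hsum⟩⟩
  intro y hy z hz h1 h2
  exact hS.flip_conj hx hflip (hsub y hy) hz fun h3 => h1 ((hhalf z h3).2 h2)

end

end Pool.Agent.V7H95.Wl
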