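import Pool.Agent.V7H95.Wl.Abs
import Pool.Agent.W484.TB.Pair

/-!
# Relations between the roots of regular families and numbers in an independent number field
-/

set_option autoImplicit false
set_option linter.unusedSectionVars false
set_option linter.unusedVariables false

namespace Pool.Agent.V7H95.Wl

open Polynomial Pool.Agent.W484.TB Pool.Agent.W484.AA Pool.Agent.W484.HS

noncomputable section

/-- The roots of the `f i` have only the trivial multiplicative relations with numbers of rank `r`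
over `E`. -/
def Exact (E : IntermediateField ℚ ℂ) (q r : ℕ) {I : Type} (f : I → ℤ[X]) : Prop :=
  ∀ s : ℕ, 0 < s → ∀ χ : ℚ[X], χ ≠ 0 → RankLEOver E r {ρ : ℂ | aeval ρ χ = 0} →
    ∀ ρ : ℂ, aeval ρ χ = 0 →
      ExactPair (fun z : {z : ℂ // ∃ i, aeval z (f i) = 0} => (z : ℂ) ^ s) ((q : ℂ) ^ s) ρ

section

variable {p : ℕ} [Fact p.Prime] {ν : PadicAlgCl p ≃+* ℂ} {q : ℕ} {S : Finset ℂ}

theorem Sys.log_list (h : Sys ν q S) (σ : ℂ ≃+* ℂ) (L : List ℂ) (hL : ∀ x ∈ L, x ∈ S) :
    L.prod ≠ 0 ∧ Real.log ‖ν.symm (σ L.prod)‖ =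
      (L.map fun x => slope ν q (σ x)).sum * Real.log ‖(q : PadicAlgCl p)‖ := by
  induction L with
  | nil => simp
  | cons a L ih =>
    obtain ⟨h1, h2⟩ := ih fun x hx => hL x (List.mem_cons_of_mem _ hx)
    have ha := hL a List.mem_cons_self
    rw [List.prod_cons, List.map_cons, List.sum_cons]
    refine ⟨mul_ne_zero (h.ne ha) h1, ?_⟩
    rw [map_mul, map_mul, norm_mul, Real.log_mul (nrm_ne (h.ne (h.stable σ a ha)))
      (nrm_ne (by
        rw [map_ne_zero_iff _ σ.injective]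
        exact h1)), h2, ← h.slope_mul, add_mul]

/-- A multiplicative relation is a relation between the slopes. -/
theorem Sys.rel_list (h : Sys ν q S) (L : List ℂ) (hL : ∀ x ∈ L, x ∈ S) {M : ℕ} (hM : 0 < M)
    (hrel : L.prod ^ (2 * M) = (q : ℂ) ^ (L.length * M)) (σ : ℂ ≃+* ℂ) :
    ∑ x ∈ S, ((L.count x : ℤ) : ℝ) * (2 * slope ν q (σ x) - 1) = 0 := by
  classical
  have h1 := congrArg (fun y => Real.log ‖ν.symm (σ y)‖) hrel
  simp only [map_pow, norm_pow, Real.log_pow, map_natCast] at h1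
  rw [(h.log_list σ L hL).2] at h1
  have h2 : (M : ℝ) * Real.log ‖(q : PadicAlgCl p)‖ *
      (2 * (L.map fun x => slope ν q (σ x)).sum - L.length) = 0 := by
    push_cast at h1
    linear_combination h1
  have h3 := (mul_eq_zero.1 h2).resolve_left
    (mul_ne_zero (by exact_mod_cast hM.ne') h.lq_ne)
  have h4 : ∀ L : List ℂ, (L.map fun x => 2 * slope ν q (σ x) - 1).sum =
      2 * (L.map fun x => slope ν q (σ x)).sum - L.length := by
    intro L
    induction L with
    | nil => simp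
    | cons a L ih =>
      simp only [List.map_cons, List.sum_cons, List.length_cons, ih]
      push_cast
      ring
  rw [← h4 L, Finset.sum_list_map_count] at h3
  rw [← h3]
  symm
  refine Finset.sum_subset_zero_on_sdiff (fun x hx => hL x (List.mem_toFinset.1 hx)) ?_ ?_
  · intro x hx
    have h5 : x ∉ L := fun h => (Finset.mem_sdiff.1 hx).2 (List.mem_toFinset.2 h)
    rw [List.count_eq_zero_of_not_mem h5]
    simp
  · intro x hx
    rw [nsmul_eq_mul]
    push_cast
    rfl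

theorem Sys.count_eq (h : Sys ν q S)
    (hreg : ∀ x ∈ S, IsInRegularBlock ν q (S : Set ℂ) x ∨ IsOverQuadratic ν q (S : Set ℂ) x ∨
      HasPrimePowerDegree ν q (S : Set ℂ) x) (L : List ℂ) (hL : ∀ x ∈ L, x ∈ S) {M : ℕ}
    (hM : 0 < M) (hrel : L.prod ^ (2 * M) = (q : ℂ) ^ (L.length * M)) {x : ℂ} (hx : x ∈ S) :
    L.count x = L.count (bar x) := by
  have h1 := h.rel_list L hL hM hrel
  have h2 : ((L.count x : ℕ) : ℤ) = ((L.count (bar x) : ℕ) : ℤ) := by
    rcases hreg x hx with h3 | h3 | h3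
    · exact h.mult_block (m := fun y => ((L.count y : ℕ) : ℤ)) h1 h3
    · exact h.mult_block (m := fun y => ((L.count y : ℕ) : ℤ)) h1 (h.regular_of_quadratic hx h3)
    · exact h.mult_degree (m := fun y => ((L.count y : ℕ) : ℤ)) h1 hx h3
  exact_mod_cast h2

variable {I : Type} [Finite I] {f : I → ℤ[X]}

theorem aeval_move (σ : ℂ ≃+* ℂ) (g : ℤ[X]) (x : ℂ) : aeval (σ x) g = σ (aeval x g) := by
  have h := Polynomial.hom_eval₂ g (algebraMap ℤ ℂ) (σ : ℂ →+* ℂ) x
  rw [RingHom.ext_int ((σ : ℂ →+* ℂ).comp (algebraMap ℤ ℂ)) (algebraMap ℤ ℂ)] at h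
  exact h.symm

theorem roots_finite (hf : ∀ i, (f i).Monic) : (roots f).Finite := by
  have h1 : roots f = ⋃ i, {z : ℂ | aeval z (f i) = 0} := by
    ext z
    rw [Set.mem_iUnion]
    rfl
  rw [h1]
  refine Set.finite_iUnion fun i => ?_
  refine (Polynomial.rootSet_finite (f i) ℂ).subset fun z hz => ?_
  exact mem_rootSet.2 ⟨(hf i).ne_zero, hz⟩

omit [Finite I] in
theorem IsRegularFamily.one_lt (hf : IsRegularFamily ν q f) : 1 < q := by
  obtain ⟨a, ha, rfl⟩ := hf.power
  exact Nat.one_lt_pow ha.ne' (Fact.out : p.Prime).one_lt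

theorem sys_of_family (hf : IsRegularFamily ν q f) :
    ∃ S : Finset ℂ, (S : Set ℂ) = roots f ∧ Sys ν q S := by
  refine ⟨(roots_finite hf.monic).toFinset, Set.Finite.coe_toFinset _, hf.power, ?_, ?_, ?_⟩
  · intro σ x hx
    rw [Set.Finite.mem_toFinset] at hx ⊢
    obtain ⟨i, hi⟩ := hx
    exact ⟨i, by rw [aeval_move, hi, map_zero]⟩
  · intro x hx
    rw [Set.Finite.mem_toFinset] at hx
    have h1 := hf.norm x hx
    unfold bar
    rw [Complex.mul_conj, Complex.normSq_eq_norm_sq, h1]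
    push_cast
    rfl
  · intro x hx
    rw [Set.Finite.mem_toFinset] at hx
    exact hf.nonreal x hx

/-- **The roots of a regular family have only trivial relations with numbers in an independent
field.** -/
theorem exact_of_regular (hf : IsRegularFamily ν q f) {E : IntermediateField ℚ ℂ}
    (hE : IsIndependent E f) : Exact E q 0 f := by
  intro s hs χ hχ hrank ρ hρ n c N hN hn ys hlen hrel hpw
  obtain ⟨S, hS, hsys⟩ := sys_of_family hf
  have hmem : ∀ x, x ∈ S ↔ x ∈ roots f := fun x => by rw [← hS]; rfl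
  obtain ⟨τ, hτ1, hτ2⟩ := hE
  obtain ⟨u, hu0, hu⟩ := hrank
  obtain ⟨M, y, m, hM, hyE, hy0, h1⟩ := hu ρ hρ
  rw [Finset.univ_eq_empty, Finset.prod_empty, mul_one] at h1
  obtain ⟨L, hLdef⟩ : ∃ L : List ℂ,
      L = ys.map (fun z : {z : ℂ // ∃ i, aeval z (f i) = 0} => (z : ℂ)) := ⟨_, rfl⟩
  have hL : ∀ x ∈ L, x ∈ S := by
    intro x hx
    rw [hLdef, List.mem_map] at hx
    obtain ⟨z, -, rfl⟩ := hx
    exact (hmem _).2 z.2
  have hpow : (ys.map (fun z : {z : ℂ // ∃ i, aeval z (f i) = 0} => (z : ℂ) ^ s)).prod =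
      L.prod ^ s := by
    rw [hLdef]
    clear hrel hpw hlen hL hLdef
    induction ys with
    | nil => simp
    | cons a ys ih => rw [List.map_cons, List.prod_cons, ih, List.map_cons, List.prod_cons, mul_pow]
  have hL0 : L.prod ≠ 0 := (hsys.log_list 1 L hL).1
  rw [hpow] at hrel
  -- the relation with `y`
  have h2 : L.prod ^ (s * N * M) * y ^ N = (((q : ℂ) ^ s) ^ c) ^ (N * M) := by
    calc L.prod ^ (s * N * M) * y ^ N = ((L.prod ^ s * ρ) ^ N) ^ M := by
          rw [← h1, mul_pow, mul_pow]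
          congr 1
          · rw [← pow_mul, ← pow_mul, mul_assoc]
          · rw [← pow_mul, ← pow_mul, mul_comm]
      _ = (((q : ℂ) ^ s) ^ c) ^ (N * M) := by rw [hrel, ← pow_mul]
  have h3 := congrArg τ h2
  rw [map_mul, map_pow, map_pow, hτ1 y hyE, map_pow, map_zpow₀, map_pow, map_natCast, ← h2] at h3
  have h4 : (τ L.prod) ^ (s * N * M) = L.prod ^ (s * N * M) :=
    mul_right_cancel₀ (pow_ne_zero _ hy0) h3
  have h5 : ∀ L : List ℂ, (∀ x ∈ L, x ∈ S) → L.prod * τ L.prod = (q : ℂ) ^ L.length := by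
    intro L hL
    induction L with
    | nil => simp
    | cons a L ih =>
      have ha := hL a List.mem_cons_self
      rw [List.prod_cons, map_mul, List.length_cons, pow_succ,
        ← ih fun x hx => hL x (List.mem_cons_of_mem _ hx), hτ2 a ((hmem a).1 ha),
        ← hsys.mul_bar a ha]
      ring
  have hK : 0 < s * N * M := Nat.mul_pos (Nat.mul_pos hs hN) hM
  have h6 : L.prod ^ (2 * (s * N * M)) = (q : ℂ) ^ (L.length * (s * N * M)) := by
    rw [two_mul, pow_add]
    nth_rewrite 2 [← h4]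
    rw [← mul_pow, h5 L hL, ← pow_mul]
  -- a root
  obtain ⟨z, hz⟩ : ∃ z, z ∈ ys := List.exists_mem_of_length_pos (by omega)
  have hzS : (z : ℂ) ∈ S := (hmem _).2 z.2
  have hreg : ∀ x ∈ S, IsInRegularBlock ν q (S : Set ℂ) x ∨ IsOverQuadratic ν q (S : Set ℂ) x ∨
      HasPrimePowerDegree ν q (S : Set ℂ) x := by
    rw [hS]
    intro x hx
    exact hf.regular x ((hmem x).1 hx)
  have h7 := hsys.count_eq hreg L hL hK h6 hzS
  have h8 : 0 < L.count (z : ℂ) := by
    rw [List.count_pos_iff, hLdef]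
    exact List.mem_map.2 ⟨z, hz, rfl⟩
  rw [h7, List.count_pos_iff, hLdef] at h8
  obtain ⟨z', hz', h9⟩ := List.mem_map.1 h8
  have hne : z ≠ z' := by
    rintro rfl
    exact hsys.nonreal _ hzS h9.symm
  have _ : Std.Symm (fun y y' : {z : ℂ // ∃ i, aeval z (f i) = 0} =>
      (fun z : {z : ℂ // ∃ i, aeval z (f i) = 0} => (z : ℂ) ^ s) y *
        (fun z : {z : ℂ // ∃ i, aeval z (f i) = 0} => (z : ℂ) ^ s) y' ≠ (q : ℂ) ^ s) :=
    ⟨fun a b h h' => h (by rw [mul_comm]; exact h')⟩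
  have h10 := hpw.forall hz hz' hne
  apply h10
  rw [← mul_pow]
  have h11 : (z : ℂ) * (z' : ℂ) = q := by
    have h12 : (z' : ℂ) = bar (z : ℂ) := h9
    rw [h12]
    exact hsys.mul_bar _ hzS
  rw [h11]

end

end

end Pool.Agent.V7H95.Wl
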