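import Mathlib
import Pool.Agent.W484.CK.Stm

/-!
# The Tate conjecture for products of constant abelian varieties and arbitrary varieties over
# finitely generated fields of positive characteristic: statements
-/

set_option autoImplicit false

open Polynomial

namespace Pool.Agent.V7H95.Wl

/-- Let `k` be a finitely generated field of positive characteristic with finite field of constants
`F` (for instance `k = F`), `A` an abelian variety over `F`, and `Z` **any variety** over `k`, for
instance singular, open or reducible. The data are the cohomology ring `H` of `A` (over the algebraic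
closure, with coefficients in `K`) and the Borel-Moore homology groups `M` and `N` (étale homology over
the separable closure, without Tate twists) of `Z` and of `A × Z`: with their gradings, the operation of
the geometric Galois group `G`, the group of the automorphisms of the separable closure of `k` over
`k` and the algebraic closure of `F`, the operation of an element of the Galois group of `k` which is the
geometric Frobenius on the algebraic closure of `F`, the classes of the divisors on `A`, the classes of
cycles of each dimension on `Z` and `A × Z` (with rational coefficients), the degree map `tr` of `A`,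
exterior products, and the maps `push D` which send `w` to the push-forward to `Z` of the intersection
of `w` and `D × Z`. -/
structure ProductData (K : Type) [Field K] where
  /-- the dimension of `A` -/
  dim : ℕ
  /-- the cohomology ring of `A` -/
  H : Type
  /-- the sum of the homology groups of `Z` -/
  M : Type
  /-- the sum of the homology groups of `A × Z` -/
  N : Type
  [ringH : Ring H]
  [algH : Algebra K H]
  [grpM : AddCommGroup M]
  [modM : Module K M]
  [grpN : AddCommGroup N]
  [modN : Module K N]
  /-- `degH i` is `H^i(A)` -/
  degH : ℤ → Submodule K H
  /-- `degM i` is `H_i(Z)` -/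
  degM : ℤ → Submodule K M
  /-- `degN i` is `H_i(A × Z)` -/
  degN : ℤ → Submodule K N
  /-- the geometric Galois group -/
  G : Type
  /-- its operation on the homology of `Z` -/
  geoM : G → M →ₗ[K] M
  /-- its operation on the homology of `A × Z` -/
  geoN : G → N →ₗ[K] N
  /-- the geometric Frobenius on the cohomology of `A` -/
  frobH : H →ₐ[K] H
  /-- the operation of Frobenius on the homology of `Z` -/
  frobM : M →ₗ[K] M
  /-- the operation of Frobenius on the homology of `A × Z` -/
  frobN : N →ₗ[K] N
  /-- the classes of the divisors on `A`, with rational coefficients -/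
  div : Set H
  /-- the classes of the cycles of dimension `m` on `Z`, with rational coefficients -/
  cycM : ℤ → Set M
  /-- the classes of the cycles of dimension `m` on `A × Z`, with rational coefficients -/
  cycN : ℤ → Set N
  /-- the degree map of `A`, zero outside of the top degree -/
  tr : H →ₗ[K] K
  /-- the exterior product of cohomology classes of `A` and homology classes of `Z` -/
  cross : H →ₗ[K] M →ₗ[K] N
  /-- intersection with a class on `A` followed by push-forward to `Z` -/
  cap : H →ₗ[K] N →ₗ[K] M

attribute [instance] ProductData.ringH ProductData.algH ProductData.grpM ProductData.modM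
  ProductData.grpN ProductData.modN

section

variable {K : Type} [Field K]

/-- The exterior product `x × z`. -/
def times (P : ProductData K) (x : P.H) (z : P.M) : P.N := P.cross x z

/-- The push-forward to `Z` of the intersection of `w` and `x × Z`. -/
def push (P : ProductData K) (x : P.H) (w : P.N) : P.M := P.cap x w

/-- The multiple `Q ^ m z`. -/
noncomputable def mult (K : Type) [Field K] {V : Type} [AddCommGroup V] [Module K V] (Q : ℕ) (m : ℤ)
    (z : V) : V := (Q : K) ^ m • z

/-- The element `z` is a linear combination of elements of `S`. -/
def Spanned (K : Type) [Field K] {V : Type} [AddCommGroup V] [Module K V] (S : Set V) (z : V) : Prop :=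
  z ∈ Submodule.span K S

/-- The class `x` on `A` is a product (an intersection) of `l` classes of divisors. -/
def IsDivisorProduct (P : ProductData K) (l : ℕ) (x : P.H) : Prop :=
  ∃ L : List P.H, L.length = l ∧ (∀ y ∈ L, y ∈ P.div) ∧ x = L.prod

/-- `x` is an eigenvector of Frobenius in `H^1(A)` with an eigenvalue `z ^ s`, where `z` is a root of
one of the `f i`. -/
def IsRootVector (P : ProductData K) (s : ℕ) {I : Type} (f : I → ℤ[X]) (x : P.H) : Prop :=
  x ∈ P.degH 1 ∧ ∃ i, ∃ z : K, aeval z (f i) = 0 ∧ P.frobH x = z ^ s • x

/-- The abelian variety `A` over the field with `Q = q ^ s` elements is isogenous to a product of powers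
of abelian varieties which come from the field with `q` elements and have characteristic polynomials
of Frobenius `f i` over this field: the cohomology ring of `A` is graded, finite-dimensional, zero in
degrees above `2 dim A`, generated by `H^1(A)`, whose elements anticommute, and which is spanned by
eigenvectors of Frobenius with eigenvalues `z ^ s`, `z` a root of some `f i`; the theorem of Tate on
divisors holds; and there is a divisor `h` (an ample one) with `h ^ dim A ≠ 0`. -/
structure IsAbelianVariety (P : ProductData K) (q s : ℕ) {I : Type} (f : I → ℤ[X]) : Prop where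
  finite : Module.Finite K P.H
  one_mem : 1 ∈ P.degH 0
  mul_mem : ∀ i j x y, x ∈ P.degH i → y ∈ P.degH j → x * y ∈ P.degH (i + j)
  top : ∀ i x, 2 * (P.dim : ℤ) < i → x ∈ P.degH i → x = 0
  generated : Algebra.adjoin K (P.degH 1 : Set P.H) = ⊤
  anticomm : ∀ x y, x ∈ P.degH 1 → y ∈ P.degH 1 → x * y = -(y * x)
  spanned : ∀ x, x ∈ P.degH 1 → Spanned K {y | IsRootVector P s f y} x
  div_mem : ∀ x, x ∈ P.div → x ∈ P.degH 2 ∧ P.frobH x = mult K (q ^ s) 1 x
  tate : ∀ x, x ∈ P.degH 2 → P.frobH x = mult K (q ^ s) 1 x → Spanned K P.div x
  ample : ∃ h, h ∈ P.div ∧ P.tr (h ^ P.dim) ≠ 0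

/-- The class `z` is invariant under the geometric Galois group. -/
def IsInvariant {V G : Type} [AddCommGroup V] [Module K V] (geo : G → V →ₗ[K] V) (z : V) : Prop :=
  ∀ g, geo g z = z

/-- Well-known properties of the homology groups of a variety over a field whose field of constants has
`Q` elements: their sum is direct, the Galois group respects the degrees, Frobenius maps classes which
are invariant under the geometric Galois group to such classes, the classes of the cycles of
dimension `m` are invariant elements of `H_(2 m)`, and Frobenius acts on them as multiplication by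
`Q ^ (- m)`. -/
structure IsHomology {V G : Type} [AddCommGroup V] [Module K V] (geo : G → V →ₗ[K] V)
    (F : V →ₗ[K] V) (deg : ℤ → Submodule K V) (cyc : ℤ → Set V) (Q : ℕ) : Prop where
  graded : DirectSum.IsInternal deg
  geo_mem : ∀ g i z, z ∈ deg i → geo g z ∈ deg i
  frob_mem : ∀ i z, z ∈ deg i → F z ∈ deg i
  frob_invariant : ∀ z, IsInvariant geo z → IsInvariant geo (F z)
  cyc_mem : ∀ m z, z ∈ cyc m → z ∈ deg (2 * m) ∧ IsInvariant geo z ∧ F z = mult K Q (-m) z

/-- The Kunneth formula: every element is a sum of exterior products, and if a sum of the exterior
products of linearly independent classes on `A` with `z 1, z 2, …` is zero, then all `z i` are zero. -/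
structure HasKunneth (P : ProductData K) : Prop where
  onto : ∀ w : P.N, ∃ (n : ℕ) (x : Fin n → P.H) (z : Fin n → P.M), w = ∑ i, times P (x i) (z i)
  injective : ∀ (n : ℕ) (x : Fin n → P.H) (z : Fin n → P.M), LinearIndependent K x →
    ∑ i, times P (x i) (z i) = 0 → ∀ i, z i = 0

/-- Exterior products are compatible with degrees, the Galois group (the geometric Galois group
operates trivially on the cohomology of `A`) and cycles, and so are the maps `push x`, `x` a product of
divisors. -/
structure IsCompatible (P : ProductData K) (Q : ℕ) : Prop where
  times_mem : ∀ i j x z, x ∈ P.degH i → z ∈ P.degM j → times P x z ∈ P.degN (j + 2 * P.dim - i)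
  times_geo : ∀ g x z, P.geoN g (times P x z) = times P x (P.geoM g z)
  times_frob : ∀ x z, P.frobN (times P x z) = mult K Q (-P.dim) (times P (P.frobH x) (P.frobM z))
  times_cyc : ∀ l m x z, IsDivisorProduct P l x → z ∈ P.cycM m →
    Spanned K (P.cycN (m + P.dim - l)) (times P x z)
  push_cyc : ∀ l m x w, IsDivisorProduct P l x → w ∈ P.cycN m →
    Spanned K (P.cycM (m - l)) (push P x w)
  push_times : ∀ l m x y z, l + m = P.dim → IsDivisorProduct P l x → IsDivisorProduct P m y →
    push P x (times P y z) = P.tr (x * y) • z

/-- Well-known properties of the homology groups of `Z` and `A × Z`, where the field of constants has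
`Q` elements: they satisfy `IsHomology`, the groups of `Z` are finite-dimensional, the Kunneth formula
holds, exterior products are compatible with degrees, the Galois group and cycles, and so are the
maps `push x`. -/
structure IsHomologyOfProduct (P : ProductData K) (Q : ℕ) : Prop where
  finite : Module.Finite K P.M
  left : IsHomology P.geoM P.frobM P.degM P.cycM Q
  right : IsHomology P.geoN P.frobN P.degN P.cycN Q
  kunneth : HasKunneth P
  compatible : IsCompatible P Q

/-- The element `z` is killed by the `n`-th power of `F - Q ^ m`. -/
def KilledBy {V : Type} [AddCommGroup V] [Module K V] (F : V →ₗ[K] V) (Q : ℕ) (m : ℤ) (n : ℕ)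
    (z : V) : Prop := (fun y => F y - mult K Q m y)^[n] z = 0

/-- The Tate conjecture in dimension `m`, the surjectivity of the cycle map to the Galois
invariants of `H_(2 m)(m)`: every class in `H_(2 m)` which is invariant under the geometric Galois
group and on which Frobenius is multiplication by `Q ^ (- m)` is a linear combination of classes of
cycles. -/
def TateHolds {V G : Type} [AddCommGroup V] [Module K V] (geo : G → V →ₗ[K] V) (F : V →ₗ[K] V)
    (deg : ℤ → Submodule K V) (cyc : ℤ → Set V) (Q : ℕ) (m : ℤ) : Prop :=
  ∀ z ∈ deg (2 * m), IsInvariant geo z → F z = mult K Q (-m) z → Spanned K (cyc m) z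

/-- The eigenvalue `Q ^ (- m)` of Frobenius on the geometric invariants of `H_(2 m)` is semisimple. -/
def IsSemisimpleAt {V G : Type} [AddCommGroup V] [Module K V] (geo : G → V →ₗ[K] V) (F : V →ₗ[K] V)
    (deg : ℤ → Submodule K V) (Q : ℕ) (m : ℤ) : Prop :=
  ∀ z ∈ deg (2 * m), IsInvariant geo z → KilledBy F Q (-m) 2 z → F z = mult K Q (-m) z

/-- The element `v` of `H_(2 j)(A × Z)` is the product of an intersection of `l` divisors on `A`,
`l ≤ dim A`, and a geometrically invariant element of `H_(2 m)(Z)`, `m = j - dim A + l`, which is killed
by the `n`-th power of `F - Q ^ (- m)`. -/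
def IsElementaryProduct (P : ProductData K) (Q : ℕ) (j : ℤ) (n : ℕ) (v : P.N) : Prop :=
  ∃ (l : ℕ) (x : P.H) (z : P.M), l ≤ P.dim ∧ IsDivisorProduct P l x ∧
    z ∈ P.degM (2 * (j - P.dim + l)) ∧ IsInvariant P.geoM z ∧
    KilledBy P.frobM Q (-(j - P.dim + l)) n z ∧ v = times P x z

/-- The property of the homology of `A × Z`, for all `j`:

* the geometrically invariant generalized eigenvectors for the eigenvalue `Q ^ (- j)` of Frobenius in
  `H_(2 j)(A × Z)`, of order `n`, are linear combinations of products as in `IsElementaryProduct` (for
  `n = 1`: the Galois invariants of `H_(2 j)(A × Z)(j)` are combinations of products of intersections of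
  divisors on `A` and Galois invariants of `H_(2 m)(Z)(m)`);
* the Tate conjecture holds for the cycles of dimension `j` on `A × Z` if and only if it holds for the
  cycles of dimension `m` on `Z`, `j - dim A ≤ m ≤ j`;
* the same for the semisimplicity of the eigenvalue. -/
structure IsControlled (P : ProductData K) (Q : ℕ) (j : ℤ) : Prop where
  span : ∀ (n : ℕ) (w : P.N), w ∈ P.degN (2 * j) → IsInvariant P.geoN w →
    KilledBy P.frobN Q (-j) n w → Spanned K {v | IsElementaryProduct P Q j n v} w
  tate : TateHolds P.geoN P.frobN P.degN P.cycN Q j ↔
    ∀ m : ℤ, m ≤ j → j ≤ m + P.dim → TateHolds P.geoM P.frobM P.degM P.cycM Q m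
  semisimple : IsSemisimpleAt P.geoN P.frobN P.degN Q j ↔
    ∀ m : ℤ, m ≤ j → j ≤ m + P.dim → IsSemisimpleAt P.geoM P.frobM P.degM Q m

/-- The eigenvalues of `F` on the geometric invariants are roots of a nonzero rational polynomial all
of whose roots in `ℂ` lie, up to powers, in a group generated by the nonzero elements of the field `E`
and `r` numbers. -/
def HasEigenvaluesIn [CharZero K] {V G : Type} [AddCommGroup V] [Module K V]
    (geo : G → V →ₗ[K] V) (F : V →ₗ[K] V) (E : IntermediateField ℚ ℂ) (r : ℕ) : Prop :=
  ∃ χ : ℚ[X], χ ≠ 0 ∧
    (∀ (ρ : K) (v : V), v ≠ 0 → IsInvariant geo v → F v = ρ • v → aeval ρ χ = 0) ∧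
    Pool.Agent.W484.CK.GroupOfRank E r {ρ : ℂ | aeval ρ χ = 0}

end

/-- `TateForSingularOver E q r f`: let `k` be a finitely generated field whose field of constants has
`Q = q ^ s` elements, `A` an abelian variety over the field of constants which is isogenous to a
product of powers of abelian varieties coming from the field with `q` elements with characteristic
polynomials `f i` (`IsAbelianVariety`), and let `Z` be **any variety** (singular, open, reducible) over
`k` such that the eigenvalues of Frobenius on the geometric invariants in the homology of `Z` are
algebraic numbers which, with their conjugates, have rank at most `r` modulo the numbers with a power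
in `E`. Then `IsControlled` holds for all `j`. -/
def TateForSingularOver (E : IntermediateField ℚ ℂ) (q r : ℕ) {I : Type} (f : I → ℤ[X]) : Prop :=
  ∀ (K : Type) [Field K] [CharZero K] (s : ℕ) (P : ProductData K), 0 < s →
    IsAbelianVariety P q s f → IsHomologyOfProduct P (q ^ s) →
    HasEigenvaluesIn P.geoM P.frobM E r → ∀ j : ℤ, IsControlled P (q ^ s) j

end Pool.Agent.V7H95.Wl
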